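import Mathlib

/-!
# Counting residue classes by the Chinese remainder theorem
-/

set_option autoImplicit false
set_option linter.all false

namespace Run7.h870.BS

open Finset
open scoped Classical

theorem crt_card (Q l : ℕ) (hQ : 0 < Q) (hl : 0 < l) (h : Nat.Coprime Q l) (S S' : Finset ℕ)
    (hS : ∀ a ∈ S, a < Q) (hS' : ∀ a ∈ S', a < l) :
    ((range (Q * l)).filter (fun b => b % Q ∈ S ∧ b % l ∈ S')).card = S.card * S'.card := by
  rw [← card_product]
  apply card_bij' (fun b _ => (b % Q, b % l)) (fun p _ => (Nat.chineseRemainder h p.1 p.2 : ℕ))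
  · intro b hb
    rw [mem_filter] at hb
    rw [mem_product]
    exact hb.2
  · intro p hp
    rw [mem_product] at hp
    have hlt := Nat.chineseRemainder_lt_mul h p.1 p.2 hQ.ne' hl.ne'
    have h1 := (Nat.chineseRemainder h p.1 p.2).2.1
    have h2 := (Nat.chineseRemainder h p.1 p.2).2.2
    rw [mem_filter, mem_range]
    refine ⟨hlt, ?_, ?_⟩
    · have h3 : (Nat.chineseRemainder h p.1 p.2 : ℕ) % Q = p.1 % Q := h1
      rw [h3, Nat.mod_eq_of_lt (hS _ hp.1)]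
      exact hp.1
    · have h3 : (Nat.chineseRemainder h p.1 p.2 : ℕ) % l = p.2 % l := h2
      rw [h3, Nat.mod_eq_of_lt (hS' _ hp.2)]
      exact hp.2
  · intro b hb
    rw [mem_filter, mem_range] at hb
    have h1 := (Nat.chineseRemainder h (b % Q) (b % l)).2.1
    have h2 := (Nat.chineseRemainder h (b % Q) (b % l)).2.2
    have hlt := Nat.chineseRemainder_lt_mul h (b % Q) (b % l) hQ.ne' hl.ne'
    have h3 : (Nat.chineseRemainder h (b % Q) (b % l) : ℕ) ≡ b [MOD Q] := h1.trans (Nat.mod_modEq _ _)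
    have h4 : (Nat.chineseRemainder h (b % Q) (b % l) : ℕ) ≡ b [MOD l] := h2.trans (Nat.mod_modEq _ _)
    have h5 := (Nat.modEq_and_modEq_iff_modEq_mul h).1 ⟨h3, h4⟩
    exact Nat.ModEq.eq_of_lt_of_lt h5 hlt hb.1
  · intro p hp
    rw [mem_product] at hp
    have h1 := (Nat.chineseRemainder h p.1 p.2).2.1
    have h2 := (Nat.chineseRemainder h p.1 p.2).2.2
    have h3 : (Nat.chineseRemainder h p.1 p.2 : ℕ) % Q = p.1 % Q := h1
    have h4 : (Nat.chineseRemainder h p.1 p.2 : ℕ) % l = p.2 % l := h2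
    rw [h3, h4, Nat.mod_eq_of_lt (hS _ hp.1), Nat.mod_eq_of_lt (hS' _ hp.2)]

/-- the admissible classes modulo `W * ∏ T` -/
noncomputable def RT (W r : ℕ) (Cl : ℕ → Finset ℕ) (T : Finset ℕ) : Finset ℕ :=
  (range (W * ∏ l ∈ T, l)).filter (fun b => b % W = r ∧ ∀ l ∈ T, b % l ∈ Cl l)

theorem RT_card (W r : ℕ) (hW : 0 < W) (hr : r < W) (Cl : ℕ → Finset ℕ) (hCl : ∀ l, ∀ a ∈ Cl l, a < l) (T : Finset ℕ)
    (hT : ∀ l ∈ T, l.Prime ∧ ¬ l ∣ W) : (RT W r Cl T).card = ∏ l ∈ T, (Cl l).card := by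
  induction T using Finset.induction_on with
  | empty =>
    unfold RT
    rw [prod_empty, prod_empty, mul_one]
    have h1 : (range W).filter (fun b => b % W = r ∧ ∀ l ∈ (∅ : Finset ℕ), b % l ∈ Cl l) = {r} := by
      ext b
      rw [mem_filter, mem_range, mem_singleton]
      constructor
      · rintro ⟨hb, hbr, _⟩
        rw [← hbr, Nat.mod_eq_of_lt hb]
      · rintro rfl
        exact ⟨hr, Nat.mod_eq_of_lt hr, fun l hl => absurd hl (notMem_empty l)⟩
    rw [h1, card_singleton]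
  | insert l T hl ih =>
    have hT' : ∀ q ∈ T, q.Prime ∧ ¬ q ∣ W := fun q hq => hT q (mem_insert_of_mem hq)
    have hlp := hT l (mem_insert_self l T)
    rw [prod_insert hl, ← ih hT', mul_comm]
    obtain ⟨Q, hQ⟩ : ∃ Q, Q = W * ∏ q ∈ T, q := ⟨_, rfl⟩
    have hQ0 : 0 < Q := by
      rw [hQ]
      exact Nat.mul_pos hW (prod_pos fun q hq => (hT' q hq).1.pos)
    have hco : Nat.Coprime Q l := by
      rw [hQ, Nat.coprime_mul_iff_left]
      refine ⟨((Nat.Prime.coprime_iff_not_dvd hlp.1).2 hlp.2).symm, Nat.Coprime.prod_left fun q hq => ?_⟩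
      rw [Nat.coprime_primes (hT' q hq).1 hlp.1]
      rintro rfl
      exact hl hq
    have hRQ : ∀ a ∈ RT W r Cl T, a < Q := by
      intro a ha
      unfold RT at ha
      rw [mem_filter, mem_range, ← hQ] at ha
      exact ha.1
    rw [← crt_card Q l hQ0 hlp.1.pos hco (RT W r Cl T) (Cl l) hRQ (hCl l)]
    congr 1
    unfold RT
    ext b
    rw [mem_filter, mem_filter, mem_filter, prod_insert hl]
    have h1 : W * (l * ∏ q ∈ T, q) = Q * l := by rw [hQ]; ring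
    rw [h1, mem_range, mem_range, ← hQ]
    have h2 : b % Q % W = b % W := Nat.mod_mod_of_dvd b (by rw [hQ]; exact dvd_mul_right _ _)
    have h3 : ∀ q ∈ T, b % Q % q = b % q := fun q hq => Nat.mod_mod_of_dvd b (by rw [hQ]; exact (dvd_prod_of_mem _ hq).mul_left _)
    rw [h2]
    constructor
    · rintro ⟨hb, hbr, hbl⟩
      refine ⟨hb, ⟨Nat.mod_lt _ hQ0, hbr, fun q hq => ?_⟩, hbl l (mem_insert_self l T)⟩
      rw [h3 q hq]
      exact hbl q (mem_insert_of_mem hq)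
    · rintro ⟨hb, ⟨_, hbr, hbT⟩, hbl⟩
      refine ⟨hb, hbr, fun q hq => ?_⟩
      rcases mem_insert.1 hq with rfl | hq
      · exact hbl
      · rw [← h3 q hq]
        exact hbT q hq

/-- the sum over the `m` in all the classes -/
theorem RT_sum (W r : ℕ) (hW : 0 < W) (hr : r < W) (Cl : ℕ → Finset ℕ) (T : Finset ℕ)
    (hT : ∀ l ∈ T, l.Prime) (Ω : Finset ℕ) (f : ℕ → ℝ) :
    ∑ m ∈ Ω.filter (fun m => m ≡ r [MOD W] ∧ ∀ l ∈ T, m % l ∈ Cl l), f m =
      ∑ b ∈ RT W r Cl T, ∑ m ∈ Ω.filter (fun m => m ≡ b [MOD (W * ∏ l ∈ T, l)]), f m := by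
  obtain ⟨Q, hQ⟩ : ∃ Q, Q = W * ∏ q ∈ T, q := ⟨_, rfl⟩
  have hQ0 : 0 < Q := by
    rw [hQ]
    exact Nat.mul_pos hW (prod_pos fun q hq => (hT q hq).pos)
  rw [← hQ]
  have hmaps : ∀ m ∈ Ω.filter (fun m => m ≡ r [MOD W] ∧ ∀ l ∈ T, m % l ∈ Cl l), m % Q ∈ RT W r Cl T := by
    intro m hm
    rw [mem_filter] at hm
    unfold RT
    rw [mem_filter, mem_range, ← hQ]
    have h2 : m % Q % W = m % W := Nat.mod_mod_of_dvd m (by rw [hQ]; exact dvd_mul_right _ _)
    refine ⟨Nat.mod_lt _ hQ0, ?_, fun q hq => ?_⟩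
    · rw [h2]
      have h4 : m % W = r % W := hm.2.1
      rw [h4, Nat.mod_eq_of_lt hr]
    · rw [Nat.mod_mod_of_dvd m (by rw [hQ]; exact (dvd_prod_of_mem _ hq).mul_left _)]
      exact hm.2.2 q hq
  rw [← sum_fiberwise_of_maps_to hmaps]
  apply sum_congr rfl
  intro b hb
  unfold RT at hb
  rw [mem_filter, mem_range, ← hQ] at hb
  apply sum_congr _ fun _ _ => rfl
  ext m
  rw [mem_filter, mem_filter, mem_filter]
  have h2 : m % Q % W = m % W := Nat.mod_mod_of_dvd m (by rw [hQ]; exact dvd_mul_right _ _)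
  constructor
  · rintro ⟨⟨hm, _⟩, h1⟩
    refine ⟨hm, ?_⟩
    show m % Q = b % Q
    rw [h1, Nat.mod_eq_of_lt hb.1]
  · rintro ⟨hm, h1⟩
    have h1 : m % Q = b % Q := h1
    rw [Nat.mod_eq_of_lt hb.1] at h1
    refine ⟨⟨hm, ?_, fun q hq => ?_⟩, h1⟩
    · show m % W = r % W
      rw [← h2, h1, hb.2.1, Nat.mod_eq_of_lt hr]
    · have h3 := Nat.mod_mod_of_dvd m (show q ∣ Q by rw [hQ]; exact (dvd_prod_of_mem _ hq).mul_left _)
      rw [← h3, h1]
      exact hb.2.2 q hq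

end Run7.h870.BS
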