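import Pool.Agent.Run7.h870.BS.Tw

/-!
# The form `n (n - p) ^ 2 + 1` in a prime `p`
-/

set_option autoImplicit false
set_option linter.all false

namespace Run7.h870.BS

open Finset Filter Topology
open scoped Classical

/-- the bad classes -/
noncomputable def qb (n l : ℕ) : Finset ℕ :=
  (range l).filter (fun a : ℕ => 0 < a ∧ (l : ℤ) ∣ (n : ℤ) * ((n : ℤ) - a) ^ 2 + 1)

theorem qb_card (n l : ℕ) (hl : l.Prime) : (qb n l).card ≤ 2 := by
  by_contra hc
  rw [not_le, Finset.two_lt_card] at hc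
  obtain ⟨a, ha, b, hb, c, hc, hab, hac, hbc⟩ := hc
  unfold qb at ha hb hc
  rw [mem_filter, mem_range] at ha hb hc
  have hl' : Prime (l : ℤ) := Nat.prime_iff_prime_int.1 hl
  have hn : ¬ (l : ℤ) ∣ n := by
    intro h
    have h1 := (Int.dvd_add_right (h.mul_right (((n : ℤ) - a) ^ 2))).1 ha.2.2
    have := Int.le_of_dvd (by norm_num) h1
    have := hl.two_le
    omega
  have key : ∀ x y : ℕ, x < l → y < l → x ≠ y → (l : ℤ) ∣ (n : ℤ) * ((n : ℤ) - x) ^ 2 + 1 → (l : ℤ) ∣ (n : ℤ) * ((n : ℤ) - y) ^ 2 + 1 →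
      (l : ℤ) ∣ 2 * n - x - y := by
    intro x y hx hy hxy h1 h2
    have h3 := dvd_sub h1 h2
    have h4 : (n : ℤ) * ((n : ℤ) - x) ^ 2 + 1 - ((n : ℤ) * ((n : ℤ) - y) ^ 2 + 1) = n * (((y : ℤ) - x) * (2 * n - x - y)) := by ring
    rw [h4] at h3
    rcases hl'.dvd_or_dvd h3 with h5 | h5
    · exact absurd h5 hn
    rcases hl'.dvd_or_dvd h5 with h6 | h6
    · exfalso
      have h7 : x ≡ y [MOD l] := by
        have : (x : ℤ) ≡ y [ZMOD l] := Int.modEq_iff_dvd.2 h6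
        exact_mod_cast this
      exact hxy (Nat.ModEq.eq_of_lt_of_lt h7 hx hy)
    · exact h6
  have k1 := key a b ha.1 hb.1 hab ha.2.2 hb.2.2
  have k2 := key a c ha.1 hc.1 hac ha.2.2 hc.2.2
  have k3 := dvd_sub k1 k2
  have k4 : 2 * (n : ℤ) - a - b - (2 * n - a - c) = (c : ℤ) - b := by ring
  rw [k4] at k3
  have h7 : b ≡ c [MOD l] := by
    have : (b : ℤ) ≡ c [ZMOD l] := Int.modEq_iff_dvd.2 k3
    exact_mod_cast this
  exact hbc (Nat.ModEq.eq_of_lt_of_lt h7 hb.1 hc.1)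

theorem qgood (n l : ℕ) (hl : l.Prime) : ∃ a : ℕ, ¬ l ∣ a ∧ ¬ (l : ℤ) ∣ (n : ℤ) * ((n : ℤ) - a) ^ 2 + 1 := by
  by_cases hln : l ∣ n
  · refine ⟨1, fun h => ?_, fun h => ?_⟩
    · have := Nat.le_of_dvd one_pos h
      have := hl.two_le
      omega
    · have h0 : (l : ℤ) ∣ n := by exact_mod_cast hln
      have h1 := (Int.dvd_add_right (h0.mul_right _)).1 h
      have := Int.le_of_dvd (by norm_num) h1
      have := hl.two_le
      omega
  · refine ⟨n, hln, fun h => ?_⟩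
    rw [sub_self, zero_pow (by norm_num), mul_zero, zero_add] at h
    have := Int.le_of_dvd (by norm_num) h
    have := hl.two_le
    omega

theorem qmain : ∃ (δ c : ℝ) (R : ℕ), 0 < δ ∧ 0 < c ∧ ∃ n₀ : ℕ, 4 ≤ n₀ ∧ ∀ n : ℕ, n₀ ≤ n → ∃ T : Finset ℕ,
    c * (n / Real.log n ^ 3) ≤ (T.card : ℝ) ∧ ∀ p ∈ T, p.Prime ∧ p < n ∧
      (∀ l : ℕ, l.Prime → l ∣ n * (n - p) ^ 2 + 1 → (n : ℝ) ^ δ ≤ l) ∧
      ArithmeticFunction.cardFactors (n * (n - p) ^ 2 + 1) ≤ R := by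
  obtain ⟨K, hK, hs⟩ := primes
  obtain ⟨δ, c, hδ, hδ1, hc, hX⟩ := hs K.factorial (Nat.factorial_pos K) (by
    intro p hp h h2
    have := (Nat.Prime.dvd_factorial hp).1 h2
    omega)
  obtain ⟨R, hR⟩ := Omega_le (δ / 2) (by positivity)
  have ht : Tendsto (fun n : ℕ => (n : ℝ) / 2) atTop atTop := tendsto_natCast_atTop_atTop.atTop_div_const (by norm_num)
  obtain ⟨n1, hn1⟩ := eventually_atTop.1 (ht.eventually hX)
  refine ⟨δ / 2, c / 2, R, by positivity, by positivity, max n1 8, by omega, fun n hn => ?_⟩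
  have hn8 : 8 ≤ n := le_trans (le_max_right _ _) hn
  have hn8r : (8 : ℝ) ≤ n := by exact_mod_cast hn8
  choose a ha using fun (l : ℕ) (hl : l.Prime) => qgood n l hl
  obtain ⟨S, hS⟩ : ∃ S, S = (range (K + 1)).filter Nat.Prime := ⟨_, rfl⟩
  obtain ⟨k, hk⟩ := Nat.chineseRemainderOfFinset (fun l => if h : l.Prime then a l h else 0) (fun l => l) S (by
      intro l hl
      rw [hS, mem_filter] at hl
      exact hl.2.ne_zero) (by
      intro l hl q hq hlq
      rw [mem_coe, hS, mem_filter] at hl hq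
      exact (Nat.coprime_primes hl.2 hq.2).2 hlq)
  have hco : (k % K.factorial).Coprime K.factorial := by
    apply Nat.coprime_of_dvd
    intro p hp hpk hpK
    have h1 : p ≤ K := (Nat.Prime.dvd_factorial hp).1 hpK
    have h2 : p ∣ k := (Nat.dvd_mod_iff hpK).1 hpk
    have h3 := hk p (by rw [hS, mem_filter, mem_range]; exact ⟨by omega, hp⟩)
    rw [dif_pos hp] at h3
    exact (ha p hp).1 ((Nat.ModEq.dvd_iff h3 dvd_rfl).1 h2)
  obtain ⟨Cl, hCl⟩ : ∃ Cl : ℕ → Finset ℕ, Cl = fun l => if l.Prime then qb n l else ∅ := ⟨_, rfl⟩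
  have h1 := hn1 n (le_trans (le_max_left _ _) hn) (k % K.factorial) (Nat.mod_lt _ (Nat.factorial_pos K)) hco Cl (by
    intro l
    rw [hCl]
    by_cases hl : l.Prime
    · simp only [if_pos hl]
      refine ⟨qb_card n l hl, fun a ha => ?_⟩
      unfold qb at ha
      rw [mem_filter, mem_range] at ha
      exact ⟨ha.2.1, ha.1⟩
    · simp only [if_neg hl]
      exact ⟨by simp, fun a ha => absurd ha (notMem_empty a)⟩)
  have hl1 : 0 < Real.log (n / 2) := Real.log_pos (by linarith)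
  have hl2 : Real.log (n / 2) ≤ Real.log n := Real.log_le_log (by linarith) (by linarith)
  have h8 : c / 2 * (n / Real.log n ^ 3) ≤ c * (n / 2 / Real.log (n / 2) ^ 3) := by
    calc c / 2 * (n / Real.log n ^ 3) = c * (n / 2 / Real.log n ^ 3) := by ring
      _ ≤ _ := by
        apply mul_le_mul_of_nonneg_left _ hc.le
        apply div_le_div_of_nonneg_left (by positivity) (by positivity)
        exact pow_le_pow_left₀ hl1.le hl2 3
  refine ⟨_, h8.trans h1, fun p hp => ?_⟩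
  unfold PS at hp
  rw [mem_filter] at hp
  obtain ⟨hm0, hpp, hp1, hp2, hpr, hpl⟩ := hp
  have hpn : (p : ℝ) < n := by linarith
  have hpn : p < n := by exact_mod_cast hpn
  have h9 : (n : ℝ) ^ (δ / 2) ≤ (n / 2) ^ δ := by
    have h10 : (n : ℝ) ^ (1 / 2 : ℝ) ≤ n / 2 := by
      rw [← Real.sqrt_eq_rpow, Real.sqrt_le_left (by positivity)]
      nlinarith
    calc (n : ℝ) ^ (δ / 2) = ((n : ℝ) ^ (1 / 2 : ℝ)) ^ δ := by
          rw [← Real.rpow_mul (by positivity)]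
          congr 1
          ring
      _ ≤ (n / 2) ^ δ := Real.rpow_le_rpow (by positivity) h10 hδ.le
  have hval : ((n * (n - p) ^ 2 + 1 : ℕ) : ℤ) = (n : ℤ) * ((n : ℤ) - p) ^ 2 + 1 := by
    rw [Nat.cast_add, Nat.cast_mul, Nat.cast_pow, Nat.cast_sub hpn.le]
    simp
  have k1 : ∀ l : ℕ, l.Prime → l ∣ n * (n - p) ^ 2 + 1 → (n : ℝ) ^ (δ / 2) ≤ l := by
    intro l hl hd
    have hdz : (l : ℤ) ∣ (n : ℤ) * ((n : ℤ) - p) ^ 2 + 1 := by
      rw [← hval]
      exact_mod_cast hd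
    by_contra hlt
    rw [not_le] at hlt
    have hlt2 : (l : ℝ) < (n / 2) ^ δ := hlt.trans_le h9
    have hmod : ∀ b : ℕ, p ≡ b [MOD l] → (l : ℤ) ∣ (n : ℤ) * ((n : ℤ) - b) ^ 2 + 1 := by
      intro b hb
      have hb' : (p : ℤ) ≡ b [ZMOD l] := by exact_mod_cast hb
      have h6 : (n : ℤ) * ((n : ℤ) - p) ^ 2 + 1 ≡ (n : ℤ) * ((n : ℤ) - b) ^ 2 + 1 [ZMOD l] :=
        (((Int.ModEq.refl (n : ℤ)).sub hb').pow 2 |>.mul_left _).add_right 1
      exact (Int.ModEq.dvd_iff h6).1 hdz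
    rcases Nat.lt_or_ge K l with hKl | hKl
    · apply hpl l hl hKl hlt2
      rw [hCl]
      simp only [if_pos hl]
      unfold qb
      rw [mem_filter, mem_range]
      refine ⟨Nat.mod_lt _ hl.pos, ?_, hmod _ (Nat.mod_modEq p l).symm⟩
      rw [Nat.pos_iff_ne_zero]
      intro h0
      have h5 : l ∣ p := Nat.dvd_of_mod_eq_zero h0
      have h6 : l = p := (Nat.prime_dvd_prime_iff_eq hl hpp).1 h5
      have h7 : ((n : ℝ) / 2) ^ δ ≤ n / 2 := by
        calc ((n : ℝ) / 2) ^ δ ≤ (n / 2) ^ (1 : ℝ) := Real.rpow_le_rpow_of_exponent_le (by linarith) hδ1.le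
          _ = n / 2 := Real.rpow_one _
      rw [h6] at hlt2
      linarith
    · have h3 := hk l (by rw [hS, mem_filter, mem_range]; exact ⟨by omega, hl⟩)
      rw [dif_pos hl] at h3
      have h5 : l ∣ K.factorial := (Nat.Prime.dvd_factorial hl).2 hKl
      have h2 : p ≡ k [MOD l] := (Nat.ModEq.of_dvd h5 hpr).trans (Nat.ModEq.of_dvd h5 (Nat.mod_modEq _ _))
      exact (ha l hl).2 (hmod _ (h2.trans h3))
  refine ⟨hpp, hpn, k1, hR n (by omega) _ (by omega) ?_ k1⟩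
  have h11 : (n - p) ^ 2 ≤ n ^ 2 := Nat.pow_le_pow_left (by omega) 2
  have h12 : n * (n - p) ^ 2 ≤ n * n ^ 2 := Nat.mul_le_mul_left _ h11
  have h13 : n * n ^ 2 * 8 ≤ n * n ^ 2 * n := Nat.mul_le_mul_left _ hn8
  have h14 : n * n ^ 2 * n = n ^ 4 := by ring
  have h15 : 0 < n * n ^ 2 := by positivity
  omega

end Run7.h870.BS
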