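import Pool.Agent.H95R2.BG.BV
import Pool.Agent.H732R2.MT_B3

/-!
# Bombieri-Vinogradov with a tent weight on `(X, 2X)`
-/

set_option autoImplicit false
set_option linter.all false

namespace Run7.h870.BS

open Finset Filter Topology
open scoped Classical
open Pool.Agent.H410R2 (psiLogAP psiLog1 BVAP)
open Pool.Agent.H95R2.BG (sum_ext card_divisors_sqf bvap')

/-- the tent weight on `(X, 2X)` -/
noncomputable def vt (X : ℝ) (m : ℕ) : ℝ :=
  max 0 (Real.log (2 * X / m)) - 2 * max 0 (Real.log (√2 * X / m)) + max 0 (Real.log (X / m))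

theorem tent (a s : ℝ) (ha : 0 < a) :
    max 0 (a + s) - 2 * max 0 s + max 0 (s - a) = max 0 (a - |s|) := by
  rcases le_or_gt s 0 with h | h
  · rw [abs_of_nonpos h, max_eq_left h, max_eq_left (by linarith : s - a ≤ 0)]
    rw [show a - -s = a + s by ring]
    ring
  · rw [abs_of_pos h, max_eq_right h.le, max_eq_right (by linarith : 0 ≤ a + s)]
    rcases le_or_gt (s - a) 0 with h1 | h1
    · rw [max_eq_left h1, max_eq_right (by linarith : 0 ≤ a - s)]
      ring
    · rw [max_eq_right h1.le, max_eq_left (by linarith : a - s ≤ 0)]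
      ring

theorem vt_eq (X : ℝ) (hX : 0 < X) (m : ℕ) (hm : 0 < m) :
    vt X m = max 0 (Real.log 2 / 2 - |Real.log (√2 * X / m)|) := by
  have hmr : (0 : ℝ) < m := by exact_mod_cast hm
  have h2 : (0 : ℝ) < Real.log 2 := Real.log_pos (by norm_num)
  have hs : Real.log √2 = Real.log 2 / 2 := by rw [Real.log_sqrt (by norm_num)]
  have h1 : Real.log (√2 * X / m) = Real.log 2 / 2 + Real.log (X / m) := by
    rw [mul_div_assoc, Real.log_mul (by positivity) (by positivity), hs]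
  have h3 : Real.log (2 * X / m) = Real.log 2 / 2 + Real.log (√2 * X / m) := by
    rw [h1, mul_div_assoc, Real.log_mul (by positivity) (by positivity)]
    ring
  have h4 : Real.log (X / m) = Real.log (√2 * X / m) - Real.log 2 / 2 := by
    rw [h1]
    ring
  rw [← tent _ _ (by linarith : (0 : ℝ) < Real.log 2 / 2)]
  unfold vt
  rw [← h3, ← h4]

theorem vt_nonneg (X : ℝ) (hX : 0 < X) (m : ℕ) (hm : 0 < m) : 0 ≤ vt X m := by
  rw [vt_eq X hX m hm]
  exact le_max_left _ _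

theorem vt_le (X : ℝ) (hX : 0 < X) (m : ℕ) (hm : 0 < m) : vt X m ≤ 1 := by
  rw [vt_eq X hX m hm]
  have := Real.log_two_lt_d9
  have := abs_nonneg (Real.log (√2 * X / m))
  exact max_le (by norm_num) (by linarith)

theorem vt_supp (X : ℝ) (hX : 0 < X) (m : ℕ) (hm : 0 < m) (h : vt X m ≠ 0) : X < m ∧ (m : ℝ) < 2 * X := by
  have hmr : (0 : ℝ) < m := by exact_mod_cast hm
  rw [vt_eq X hX m hm] at h
  have h1 : 0 < Real.log 2 / 2 - |Real.log (√2 * X / m)| := by
    by_contra hc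
    exact h (max_eq_left (not_lt.1 hc))
  have h2 := abs_lt.1 (by linarith : |Real.log (√2 * X / m)| < Real.log 2 / 2)
  have hs : Real.log √2 = Real.log 2 / 2 := by rw [Real.log_sqrt (by norm_num)]
  have h3 : Real.log (√2 * X / m) = Real.log 2 / 2 + Real.log (X / m) := by
    rw [mul_div_assoc, Real.log_mul (by positivity) (by positivity), hs]
  have h4 : Real.log (X / m) = Real.log X - Real.log m := Real.log_div hX.ne' hmr.ne'
  constructor
  · rw [← Real.log_lt_log_iff hX hmr]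
    linarith
  · rw [← Real.log_lt_log_iff hmr (by positivity), Real.log_mul (by norm_num) hX.ne']
    linarith

theorem sum_vt (X : ℝ) (hX : 0 < X) (P : ℕ → Prop) [DecidablePred P] :
    ∑ n ∈ (Icc 1 ⌊3 * X⌋₊).filter P, vt X n * ArithmeticFunction.vonMangoldt n =
      ∑ n ∈ (Icc 1 ⌊2 * X⌋₊).filter P, ArithmeticFunction.vonMangoldt n * Real.log (2 * X / n) -
      2 * ∑ n ∈ (Icc 1 ⌊√2 * X⌋₊).filter P, ArithmeticFunction.vonMangoldt n * Real.log (√2 * X / n) +
      ∑ n ∈ (Icc 1 ⌊X⌋₊).filter P, ArithmeticFunction.vonMangoldt n * Real.log (X / n) := by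
  have h2 : √2 ≤ 2 := by
    rw [Real.sqrt_le_left (by norm_num)]
    norm_num
  rw [sum_ext X (2 * X) (by positivity) (by nlinarith) P,
    sum_ext X (√2 * X) (by positivity) (by nlinarith) P,
    sum_ext X X hX (by linarith) P, Finset.mul_sum, ← Finset.sum_sub_distrib, ← Finset.sum_add_distrib]
  refine Finset.sum_congr rfl fun n hn => ?_
  unfold vt
  ring

/-- the discrepancy -/
noncomputable def EV (X : ℝ) (Q b : ℕ) : ℝ :=
  ∑ n ∈ (Icc 1 ⌊3 * X⌋₊).filter (fun n => n ≡ b [MOD Q]), vt X n * ArithmeticFunction.vonMangoldt n -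
    (1 / (Nat.totient Q : ℝ)) * ∑ n ∈ Icc 1 ⌊3 * X⌋₊, vt X n * ArithmeticFunction.vonMangoldt n

theorem EV_decomp (X : ℝ) (hX : 0 < X) (Q b : ℕ) :
    |EV X Q b| ≤
      |psiLogAP (2 * X) Q b - psiLog1 (2 * X) / (Nat.totient Q : ℝ)| +
      2 * |psiLogAP (√2 * X) Q b - psiLog1 (√2 * X) / (Nat.totient Q : ℝ)| +
      |psiLogAP X Q b - psiLog1 X / (Nat.totient Q : ℝ)| := by
  have h1 := sum_vt X hX (fun n => n ≡ b [MOD Q])
  have h2 := sum_vt X hX (fun _ => True)
  simp only [Finset.filter_true] at h2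
  have h3 : EV X Q b =
      (psiLogAP (2 * X) Q b - psiLog1 (2 * X) / (Nat.totient Q : ℝ)) -
      2 * (psiLogAP (√2 * X) Q b - psiLog1 (√2 * X) / (Nat.totient Q : ℝ)) +
      (psiLogAP X Q b - psiLog1 X / (Nat.totient Q : ℝ)) := by
    unfold EV
    rw [h1, h2]
    unfold psiLogAP psiLog1
    ring
  rw [h3]
  refine (abs_add_le _ _).trans ?_
  refine add_le_add_left ((abs_sub _ _).trans ?_) _
  rw [abs_mul, abs_two]

/-- Bombieri-Vinogradov with the weight `vt` -/
theorem bv (W : ℕ) (hW : 0 < W) (θ : ℝ) (hθ : θ < 1 / 2) (k A : ℕ) :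
    ∀ᶠ X : ℝ in atTop, ∀ B : ℕ → ℕ, (∀ q, (B q).Coprime (W * q)) →
      ∑ q ∈ (Icc 1 ⌊X ^ θ⌋₊).filter (fun q => Squarefree q),
        (q.divisors.card : ℝ) ^ k * |EV X (W * q) (B q)| ≤ X / (Real.log X) ^ A := by
  obtain ⟨θ₁, h1, h0, hθ1⟩ : ∃ θ₁ : ℝ, θ ≤ θ₁ ∧ 0 ≤ θ₁ ∧ θ₁ < 1 / 2 :=
    ⟨max θ 0, le_max_left _ _, le_max_right _ _, max_lt hθ (by norm_num)⟩
  obtain ⟨X₀, hbv⟩ := bvap' W hW ((2 : ℝ) ^ k) (one_le_pow₀ (by norm_num)) ((1 / 2 - θ₁) / 2)
    (by linarith) (A + 1)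
  filter_upwards [eventually_ge_atTop X₀, eventually_ge_atTop 3,
    Real.tendsto_log_atTop.eventually_ge_atTop 12] with X hX hX3 hlog
  intro B hB
  have hX1 : 1 ≤ X := by linarith
  have hX0 : 0 < X := by linarith
  have hlog0 : 0 < Real.log X := by linarith
  -- the bound at one height
  have hY : ∀ Y : ℝ, X ≤ Y → Y ≤ 3 * X →
      ∑ q ∈ (Icc 1 ⌊X ^ θ⌋₊).filter (fun q => Squarefree q),
        (q.divisors.card : ℝ) ^ k *
          |psiLogAP Y (W * q) (B q) - psiLog1 Y / (Nat.totient (W * q) : ℝ)| ≤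
        3 * X / (Real.log X) ^ (A + 1) := by
    intro Y hXY hY3
    have hb := hbv Y (hX.trans hXY) B
    have hfl : ⌊X ^ θ⌋₊ ≤ ⌊Y ^ (1 / 2 - (1 / 2 - θ₁) / 2)⌋₊ := by
      apply Nat.floor_le_floor
      calc X ^ θ ≤ X ^ (1 / 2 - (1 / 2 - θ₁) / 2) := Real.rpow_le_rpow_of_exponent_le hX1 (by linarith)
        _ ≤ Y ^ (1 / 2 - (1 / 2 - θ₁) / 2) := Real.rpow_le_rpow hX0.le hXY (by linarith)
    have hsub : (Icc 1 ⌊X ^ θ⌋₊).filter (fun q => Squarefree q) ⊆
        (Icc 1 ⌊Y ^ (1 / 2 - (1 / 2 - θ₁) / 2)⌋₊).filter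
          (fun q => Squarefree q ∧ (B q).Coprime (W * q)) := by
      intro q hq
      rw [Finset.mem_filter, Finset.mem_Icc] at hq ⊢
      exact ⟨⟨hq.1.1, hq.1.2.trans hfl⟩, hq.2, hB q⟩
    calc ∑ q ∈ (Icc 1 ⌊X ^ θ⌋₊).filter (fun q => Squarefree q),
        (q.divisors.card : ℝ) ^ k *
          |psiLogAP Y (W * q) (B q) - psiLog1 Y / (Nat.totient (W * q) : ℝ)|
        = ∑ q ∈ (Icc 1 ⌊X ^ θ⌋₊).filter (fun q => Squarefree q),
          ((2 : ℝ) ^ k) ^ q.primeFactors.card *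
          |psiLogAP Y (W * q) (B q) - psiLog1 Y / (Nat.totient (W * q) : ℝ)| := by
          refine Finset.sum_congr rfl fun q hq => ?_
          rw [card_divisors_sqf (Finset.mem_filter.1 hq).2]
          push_cast
          rw [← pow_mul, ← pow_mul, mul_comm k]
      _ ≤ ∑ q ∈ (Icc 1 ⌊Y ^ (1 / 2 - (1 / 2 - θ₁) / 2)⌋₊).filter
          (fun q => Squarefree q ∧ (B q).Coprime (W * q)),
          ((2 : ℝ) ^ k) ^ q.primeFactors.card *
          |psiLogAP Y (W * q) (B q) - psiLog1 Y / (Nat.totient (W * q) : ℝ)| :=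
          Finset.sum_le_sum_of_subset_of_nonneg hsub (fun q _ _ => by positivity)
      _ ≤ Y / (Real.log Y) ^ (A + 1) := by
          refine le_trans (le_of_eq ?_) hb
          congr!
      _ ≤ 3 * X / (Real.log X) ^ (A + 1) := by
          have hll : Real.log X ≤ Real.log Y := Real.log_le_log hX0 hXY
          apply div_le_div₀ (by linarith) hY3 (by positivity)
          exact pow_le_pow_left₀ hlog0.le hll _
  have h2 : √2 ≤ 2 := by
    rw [Real.sqrt_le_left (by norm_num)]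
    norm_num
  have h21 : 1 ≤ √2 := Real.one_le_sqrt.2 (by norm_num)
  have b1 := hY (2 * X) (by nlinarith) (by nlinarith)
  have b2 := hY (√2 * X) (by nlinarith) (by nlinarith)
  have b3 := hY X le_rfl (by linarith)
  calc ∑ q ∈ (Icc 1 ⌊X ^ θ⌋₊).filter (fun q => Squarefree q),
        (q.divisors.card : ℝ) ^ k * |EV X (W * q) (B q)|
      ≤ ∑ q ∈ (Icc 1 ⌊X ^ θ⌋₊).filter (fun q => Squarefree q),
        ((q.divisors.card : ℝ) ^ k *
          |psiLogAP (2 * X) (W * q) (B q) - psiLog1 (2 * X) / (Nat.totient (W * q) : ℝ)| +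
        2 * ((q.divisors.card : ℝ) ^ k *
          |psiLogAP (√2 * X) (W * q) (B q) -
            psiLog1 (√2 * X) / (Nat.totient (W * q) : ℝ)|) +
        (q.divisors.card : ℝ) ^ k *
          |psiLogAP X (W * q) (B q) - psiLog1 X / (Nat.totient (W * q) : ℝ)|) := by
        refine Finset.sum_le_sum fun q _ => ?_
        have := mul_le_mul_of_nonneg_left (EV_decomp X hX0 (W * q) (B q))
          (by positivity : (0 : ℝ) ≤ (q.divisors.card : ℝ) ^ k)
        refine this.trans (le_of_eq ?_)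
        ring
    _ ≤ 3 * X / (Real.log X) ^ (A + 1) + 2 * (3 * X / (Real.log X) ^ (A + 1)) +
        3 * X / (Real.log X) ^ (A + 1) := by
        rw [Finset.sum_add_distrib, Finset.sum_add_distrib, ← Finset.mul_sum]
        linarith
    _ = (X / (Real.log X) ^ A) * (12 / Real.log X) := by
        rw [pow_succ]
        field_simp
        ring
    _ ≤ (X / (Real.log X) ^ A) * 1 := by
        apply mul_le_mul_of_nonneg_left _ (by positivity)
        rw [div_le_one hlog0]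
        exact hlog
    _ = X / (Real.log X) ^ A := mul_one _

/-- the total mass -/
theorem mass : ∀ᶠ X : ℝ in atTop, X / 10 ≤ ∑ n ∈ Icc 1 ⌊3 * X⌋₊, vt X n * ArithmeticFunction.vonMangoldt n := by
  have hP : Tendsto (fun X : ℝ => psiLog1 X / X) atTop (𝓝 1) := Pool.Agent.H732R2.pntLog
  have h2 : √2 ≤ 1.415 := by
    rw [Real.sqrt_le_left (by norm_num)]
    norm_num
  have h0 : (0 : ℝ) < √2 := by positivity
  have e1 : ∀ᶠ X : ℝ in atTop, psiLog1 X / X ∈ Set.Ioo (0.99 : ℝ) 1.01 := hP.eventually (Ioo_mem_nhds (by norm_num) (by norm_num))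
  have t2 : Tendsto (fun X : ℝ => 2 * X) atTop atTop := tendsto_id.const_mul_atTop (by norm_num)
  have t3 : Tendsto (fun X : ℝ => √2 * X) atTop atTop := tendsto_id.const_mul_atTop h0
  filter_upwards [e1, t2.eventually e1, t3.eventually e1, eventually_gt_atTop 0] with X h3 h4 h5 hX
  have h6 := sum_vt X hX (fun _ => True)
  simp only [Finset.filter_true] at h6
  rw [h6]
  have h7 : psiLog1 (2 * X) = ∑ n ∈ Icc 1 ⌊2 * X⌋₊, ArithmeticFunction.vonMangoldt n * Real.log (2 * X / n) := rfl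
  have h8 : psiLog1 (√2 * X) = ∑ n ∈ Icc 1 ⌊√2 * X⌋₊, ArithmeticFunction.vonMangoldt n * Real.log (√2 * X / n) := rfl
  have h9 : psiLog1 X = ∑ n ∈ Icc 1 ⌊X⌋₊, ArithmeticFunction.vonMangoldt n * Real.log (X / n) := rfl
  rw [← h7, ← h8, ← h9]
  have k1 := (lt_div_iff₀ hX).1 h3.1
  have k2 := (lt_div_iff₀ (by positivity)).1 h4.1
  have k3 := (div_lt_iff₀ (by positivity)).1 h5.2
  nlinarith

end Run7.h870.BS
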