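import Pool.Agent.Run7.h870.BS.Cr
import Pool.Agent.Run7.h870.BS.Wt
import Pool.Agent.H20R2.EN.FLem
import Pool.Agent.Helper112.Lp.Kmt

/-!
# The sieve over primes with at most two classes for every prime
-/

set_option autoImplicit false
set_option linter.all false

namespace Run7.h870.BS

open Finset Filter Topology
open scoped Classical

theorem tail_prod (N : ℕ) : (1 : ℝ) / 2 + 8 / (N + 17 : ℕ) ≤ ∏ m ∈ Ico 17 (N + 17), (1 - 4 / (m : ℝ) ^ 2) := by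
  induction N with
  | zero => norm_num
  | succ N ih =>
    rw [show N + 1 + 17 = (N + 17) + 1 by ring, prod_Ico_succ_top (by omega)]
    obtain ⟨x, hx⟩ : ∃ x : ℝ, x = ((N + 17 : ℕ) : ℝ) := ⟨_, rfl⟩
    have hx17 : (17 : ℝ) ≤ x := by rw [hx]; exact_mod_cast (by omega : 17 ≤ N + 17)
    rw [← hx] at ih ⊢
    have h1 : (((N + 17) + 1 : ℕ) : ℝ) = x + 1 := by rw [hx]; push_cast; ring
    rw [h1]
    have h2 : 0 ≤ 1 - 4 / x ^ 2 := by
      rw [sub_nonneg, div_le_one (by positivity)]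
      nlinarith
    refine le_trans ?_ (mul_le_mul_of_nonneg_right ih h2)
    have h3 : (1 / 2 + 8 / x) * (1 - 4 / x ^ 2) - (1 / 2 + 8 / (x + 1)) = (6 * x ^ 2 - 34 * x - 32) / (x ^ 3 * (x + 1)) := by
      field_simp
      ring
    have h4 : 0 ≤ (6 * x ^ 2 - 34 * x - 32) / (x ^ 3 * (x + 1)) := div_nonneg (by nlinarith) (by positivity)
    linarith

theorem loc (p : ℝ) (hp : 17 ≤ p) : (1 - 1 / p) ^ 2 * (1 - 4 / p ^ 2) ≤ 1 - 2 / (p - 1) := by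
  have h1 : 0 < p - 1 := by linarith
  have h3 : 1 - 2 / (p - 1) - (1 - 1 / p) ^ 2 * (1 - 4 / p ^ 2) = (p ^ 3 * 1 - 11 * p ^ 2 + 12 * p - 4) / (p ^ 4 * (p - 1)) := by
    field_simp
    ring
  have h4 : 0 ≤ (p ^ 3 * 1 - 11 * p ^ 2 + 12 * p - 4) / (p ^ 4 * (p - 1)) := by
    apply div_nonneg _ (by positivity)
    nlinarith [mul_nonneg (sq_nonneg p) (by linarith : 0 ≤ p - 17)]
  linarith

theorem vprod : ∃ c : ℝ, 0 < c ∧ ∀ (K J : ℕ), 16 ≤ K →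
    c / 4 ^ J ≤ ∏ p ∈ (range (2 ^ 2 ^ J)).filter (fun p => p.Prime ∧ K < p), (1 - 2 / ((p : ℝ) - 1)) := by
  obtain ⟨c, C, hc, hC, hM⟩ := Pool.Agent.Helper112.LP.Kmt.mertens_prod
  refine ⟨c ^ 2 / 2, by positivity, fun K J hK => ?_⟩
  obtain ⟨P, hP⟩ : ∃ P, P = (range (2 ^ 2 ^ J)).filter (fun p => p.Prime ∧ K < p) := ⟨_, rfl⟩
  rw [← hP]
  have hPm : ∀ p ∈ P, p.Prime ∧ 17 ≤ p ∧ p < 2 ^ 2 ^ J := fun p hp => by
    rw [hP, mem_filter, mem_range] at hp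
    exact ⟨hp.2.1, by omega, hp.1⟩
  have hcJ : 0 < c / 2 ^ J := by positivity
  have h1 : c / 2 ^ J ≤ ∏ p ∈ P, (1 - 1 / (p : ℝ)) := by
    refine (hM J).1.trans ?_
    obtain ⟨S, hS⟩ : ∃ S, S = (range (2 ^ 2 ^ J)).filter Nat.Prime := ⟨_, rfl⟩
    have hSm : ∀ p ∈ S, 0 ≤ 1 - 1 / (p : ℝ) ∧ 1 - 1 / (p : ℝ) ≤ 1 := by
      intro p hp
      rw [hS, mem_filter] at hp
      have h3 : (2 : ℝ) ≤ p := by exact_mod_cast hp.2.two_le
      have h4 : 1 / (p : ℝ) ≤ 1 := by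
        rw [div_le_one (by linarith)]
        linarith
      have h5 : (0 : ℝ) ≤ 1 / (p : ℝ) := by positivity
      constructor <;> linarith
    have hsub : P ⊆ S := by
      intro p hp
      rw [hS, mem_filter, mem_range]
      exact ⟨(hPm p hp).2.2, (hPm p hp).1⟩
    rw [← hS, ← prod_sdiff hsub]
    have h3 : ∏ p ∈ S \ P, (1 - 1 / (p : ℝ)) ≤ 1 := prod_le_one (fun p hp => (hSm p (mem_sdiff.1 hp).1).1) (fun p hp => (hSm p (mem_sdiff.1 hp).1).2)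
    have h4 : 0 ≤ ∏ p ∈ P, (1 - 1 / (p : ℝ)) := prod_nonneg fun p hp => (hSm p (hsub hp)).1
    calc _ ≤ 1 * ∏ p ∈ P, (1 - 1 / (p : ℝ)) := mul_le_mul_of_nonneg_right h3 h4
      _ = _ := one_mul _
  have h2 : (1 : ℝ) / 2 ≤ ∏ p ∈ P, (1 - 4 / (p : ℝ) ^ 2) := by
    have h3 := tail_prod (2 ^ 2 ^ J)
    have h4 : (1 : ℝ) / 2 ≤ 1 / 2 + 8 / ((2 ^ 2 ^ J + 17 : ℕ) : ℝ) := by
      have : (0 : ℝ) ≤ 8 / ((2 ^ 2 ^ J + 17 : ℕ) : ℝ) := by positivity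
      linarith
    refine (h4.trans h3).trans ?_
    have hsub : P ⊆ Ico 17 (2 ^ 2 ^ J + 17) := by
      intro p hp
      have := hPm p hp
      rw [mem_Ico]
      omega
    have hSm : ∀ m : ℕ, m ∈ Ico 17 (2 ^ 2 ^ J + 17) → 0 ≤ 1 - 4 / (m : ℝ) ^ 2 ∧ 1 - 4 / (m : ℝ) ^ 2 ≤ 1 := by
      intro m hm
      rw [mem_Ico] at hm
      have h5 : (17 : ℝ) ≤ m := by exact_mod_cast hm.1
      have h6 : 4 / (m : ℝ) ^ 2 ≤ 1 := by
        rw [div_le_one (by positivity)]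
        nlinarith
      have h7 : 0 ≤ 4 / (m : ℝ) ^ 2 := by positivity
      constructor <;> linarith
    rw [← prod_sdiff hsub]
    have h8 : ∏ m ∈ Ico 17 (2 ^ 2 ^ J + 17) \ P, (1 - 4 / (m : ℝ) ^ 2) ≤ 1 := prod_le_one (fun p hp => (hSm p (mem_sdiff.1 hp).1).1) (fun p hp => (hSm p (mem_sdiff.1 hp).1).2)
    have h9 : 0 ≤ ∏ p ∈ P, (1 - 4 / (p : ℝ) ^ 2) := prod_nonneg fun p hp => (hSm p (hsub hp)).1
    calc _ ≤ 1 * ∏ p ∈ P, (1 - 4 / (p : ℝ) ^ 2) := mul_le_mul_of_nonneg_right h8 h9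
      _ = _ := one_mul _
  have h3 : ∏ p ∈ P, ((1 - 1 / (p : ℝ)) ^ 2 * (1 - 4 / (p : ℝ) ^ 2)) ≤ ∏ p ∈ P, (1 - 2 / ((p : ℝ) - 1)) := by
    apply Finset.prod_le_prod
    · intro p hp
      have h5 : (17 : ℝ) ≤ p := by exact_mod_cast (hPm p hp).2.1
      apply mul_nonneg (sq_nonneg _)
      rw [sub_nonneg, div_le_one (by positivity)]
      nlinarith
    · intro p hp
      exact loc p (by exact_mod_cast (hPm p hp).2.1)
  refine le_trans ?_ h3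
  rw [prod_mul_distrib, prod_pow]
  calc c ^ 2 / 2 / 4 ^ J = (c / 2 ^ J) ^ 2 * (1 / 2) := by
        rw [div_pow, ← pow_mul, mul_comm J 2, pow_mul]
        norm_num
        ring
    _ ≤ (∏ p ∈ P, (1 - 1 / (p : ℝ))) ^ 2 * ∏ p ∈ P, (1 - 4 / (p : ℝ) ^ 2) := by
        apply mul_le_mul (pow_le_pow_left₀ hcJ.le h1 2) h2 (by norm_num) (by positivity)

/-- the choice of the classes -/
theorem choice (X : ℝ) (W r : ℕ) (hW : 0 < W) (hr : r < W) (hrW : r.Coprime W) (Cl : ℕ → Finset ℕ)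
    (hCl : ∀ l, (Cl l).card ≤ 2 ∧ ∀ a ∈ Cl l, 0 < a ∧ a < l) :
    ∃ B : ℕ → ℕ, (∀ q, (B q).Coprime (W * q)) ∧ ∀ T : Finset ℕ, (∀ l ∈ T, l.Prime ∧ ¬ l ∣ W) →
      ∑ b ∈ RT W r Cl T, |EV X (W * ∏ l ∈ T, l) b| ≤
        ((∏ l ∈ T, l).divisors.card : ℝ) ^ 1 * |EV X (W * ∏ l ∈ T, l) (B (∏ l ∈ T, l))| := by
  have hex : ∀ q : ℕ, ∃ b : ℕ, b.Coprime (W * q) ∧ (q ≠ 0 → ∀ b' ∈ RT W r Cl q.primeFactors,
      |EV X (W * ∏ l ∈ q.primeFactors, l) b'| ≤ |EV X (W * ∏ l ∈ q.primeFactors, l) b|) := by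
    intro q
    by_cases h0 : q = 0
    · exact ⟨1, Nat.coprime_one_left _, fun h => absurd h0 h⟩
    by_cases hne : (RT W r Cl q.primeFactors).Nonempty
    · obtain ⟨b, hb, hmax⟩ := exists_max_image (RT W r Cl q.primeFactors) (fun b' => |EV X (W * ∏ l ∈ q.primeFactors, l) b'|) hne
      refine ⟨b, ?_, fun _ => hmax⟩
      unfold RT at hb
      rw [mem_filter] at hb
      obtain ⟨_, hbW, hbT⟩ := hb
      rw [Nat.coprime_mul_iff_right]
      constructor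
      · rw [← hbW] at hrW
        have h1 : Nat.gcd (b % W) W = Nat.gcd b W := by
          rw [(Nat.gcd_rec W b).symm, Nat.gcd_comm]
        unfold Nat.Coprime at hrW ⊢
        rw [← h1]
        exact hrW
      · apply Nat.Coprime.symm
        apply Nat.coprime_of_dvd
        intro p hp hpq hpb
        have h1 := hbT p (Nat.mem_primeFactors.2 ⟨hp, hpq, h0⟩)
        have h2 := ((hCl p).2 _ h1).1
        have h3 : b % p = 0 := Nat.mod_eq_zero_of_dvd hpb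
        omega
    · refine ⟨1, Nat.coprime_one_left _, fun _ b' hb' => ?_⟩
      exact absurd ⟨b', hb'⟩ hne
  choose B hB1 hB2 using hex
  refine ⟨B, hB1, fun T hT => ?_⟩
  obtain ⟨q, hq⟩ : ∃ q, q = ∏ l ∈ T, l := ⟨_, rfl⟩
  have hqT : q.primeFactors = T := by rw [hq]; exact Nat.primeFactors_prod fun p hp => (hT p hp).1
  have hq0 : q ≠ 0 := by
    rw [hq]
    exact (prod_pos fun p hp => (hT p hp).1.pos).ne'
  have hsq : Squarefree q := by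
    rw [hq]
    refine Finset.squarefree_prod_of_pairwise_isCoprime (fun a ha b hb hab ↦ ?_)
      fun a ha ↦ (hT a ha).1.squarefree
    simp only [← Nat.coprime_iff_isRelPrime]
    exact (Nat.coprime_primes (hT a ha).1 (hT b hb).1).mpr hab
  have h1 := hB2 q hq0
  rw [hqT, ← hq] at h1
  rw [← hq]
  have h2 : ∑ b ∈ RT W r Cl T, |EV X (W * q) b| ≤ ((RT W r Cl T).card : ℝ) * |EV X (W * q) (B q)| := by
    rw [← nsmul_eq_mul]
    exact sum_le_card_nsmul _ _ _ h1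
  refine h2.trans ?_
  apply mul_le_mul_of_nonneg_right _ (abs_nonneg _)
  rw [pow_one, Pool.Agent.H95R2.BG.card_divisors_sqf hsq, hqT, RT_card W r hW hr Cl (fun l a ha => ((hCl l).2 a ha).2) T hT]
  push_cast
  calc ∏ l ∈ T, ((Cl l).card : ℝ) ≤ ∏ l ∈ T, (2 : ℝ) := by
        apply Finset.prod_le_prod (fun _ _ => Nat.cast_nonneg _)
        intro l _
        exact_mod_cast (hCl l).1
    _ = 2 ^ T.card := by rw [prod_const]

end Run7.h870.BS
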