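import Pool.Agent.Run7.h870.BS.Sv

/-!
# The sieve over primes: the weighted lower bound
-/

set_option autoImplicit false
set_option linter.all false

namespace Run7.h870.BS

open Finset Filter Topology
open scoped Classical

theorem sieve : ∃ K U : ℕ, 16 ≤ K ∧ 1 ≤ U ∧ ∃ c : ℝ, 0 < c ∧ ∀ W : ℕ, 0 < W → (∀ p : ℕ, p.Prime → K < p → ¬ p ∣ W) →
    ∀ᶠ X : ℝ in atTop, ∀ J : ℕ, (((2 ^ 2 ^ J) ^ U : ℕ) : ℝ) ≤ X ^ (1 / 4 : ℝ) → ∀ r : ℕ, r < W → r.Coprime W →
    ∀ Cl : ℕ → Finset ℕ, (∀ l, (Cl l).card ≤ 2 ∧ ∀ a ∈ Cl l, 0 < a ∧ a < l) →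
    c * X / (W * 4 ^ J) - (J + 2) * (X / Real.log X ^ 4) ≤
      ∑ m ∈ ((Icc 1 ⌊3 * X⌋₊).filter (fun m => m ≡ r [MOD W])).filter
        (fun m => ∀ p : ℕ, p.Prime → K < p → p < 2 ^ 2 ^ J → m % p ∉ Cl p), vt X m * ArithmeticFunction.vonMangoldt m := by
  obtain ⟨C0, hC0, hF⟩ := Pool.Agent.H20R2.fLem 2
  obtain ⟨c, hc, hV⟩ := vprod
  obtain ⟨K, hK⟩ : ∃ K, K = max C0 16 := ⟨_, rfl⟩
  have hK1 : C0 ≤ K := by omega
  have hK2 : 16 ≤ K := by omega
  refine ⟨K, C0 * K, hK2, Nat.mul_pos hC0 (by omega), c / 20, by positivity, fun W hW hWp => ?_⟩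
  filter_upwards [bv W hW (1 / 4) (by norm_num) 1 4, mass, eventually_ge_atTop 3] with X hbv hmass hX3
  intro J hJ r hr hrW Cl hCl
  have hX0 : 0 < X := by linarith
  obtain ⟨B, hB1, hB2⟩ := choice X W r hW hr hrW Cl hCl
  obtain ⟨P, hP⟩ : ∃ P, P = (range (2 ^ 2 ^ J)).filter (fun p => p.Prime ∧ K < p) := ⟨_, rfl⟩
  have hPm : ∀ p ∈ P, p.Prime ∧ K < p ∧ p ≤ 2 ^ 2 ^ J := fun p hp => by
    rw [hP, mem_filter, mem_range] at hp
    exact ⟨hp.2.1, hp.2.2, hp.1.le⟩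
  obtain ⟨M, hM⟩ : ∃ M, M = ∑ n ∈ Icc 1 ⌊3 * X⌋₊, vt X n * ArithmeticFunction.vonMangoldt n := ⟨_, rfl⟩
  rw [← hM] at hmass
  have hM0 : 0 ≤ M := le_trans (by positivity) hmass
  have hφ : (0 : ℝ) < Nat.totient W := by exact_mod_cast Nat.totient_pos.2 hW
  obtain ⟨g, hg⟩ : ∃ g : ℕ → ℝ, g = fun p => ((Cl p).card : ℝ) / ((p : ℝ) - 1) := ⟨_, rfl⟩
  have hg2 : ∀ p ∈ P, 0 ≤ g p ∧ g p ≤ 2 / ((p : ℝ) - 1) := by
    intro p hp
    have h2 : (2 : ℝ) ≤ p := by exact_mod_cast (hPm p hp).1.two_le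
    have h3 : ((Cl p).card : ℝ) ≤ 2 := by exact_mod_cast (hCl p).1
    rw [hg]
    exact ⟨div_nonneg (Nat.cast_nonneg _) (by linarith), div_le_div_of_nonneg_right h3 (by linarith)⟩
  have h1 := hF K J K P g hK1 hK1 hPm (by
    intro p hp
    have := hg2 p hp
    push_cast
    exact this) ((Icc 1 ⌊3 * X⌋₊).filter (fun m => m ≡ r [MOD W])) (fun m => vt X m * ArithmeticFunction.vonMangoldt m)
    (fun p m => m % p ∈ Cl p) (M / Nat.totient W)
    (fun T => ∑ b ∈ RT W r Cl T, |EV X (W * ∏ l ∈ T, l) b|) (by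
      intro m hm
      rw [mem_filter, mem_Icc] at hm
      exact mul_nonneg (vt_nonneg X hX0 m (by omega)) ArithmeticFunction.vonMangoldt_nonneg) (by positivity) (by
      intro T hT _
      have hTp : ∀ l ∈ T, l.Prime ∧ ¬ l ∣ W := fun l hl => ⟨(hPm l (hT hl)).1, hWp l (hPm l (hT hl)).1 (hPm l (hT hl)).2.1⟩
      have h2 := RT_sum W r hW hr Cl T (fun l hl => (hTp l hl).1) (Icc 1 ⌊3 * X⌋₊) (fun m => vt X m * ArithmeticFunction.vonMangoldt m)
      rw [filter_filter]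
      suffices key : |∑ b ∈ RT W r Cl T, ∑ m ∈ (Icc 1 ⌊3 * X⌋₊).filter (fun m => m ≡ b [MOD (W * ∏ l ∈ T, l)]), vt X m * ArithmeticFunction.vonMangoldt m -
          M / (Nat.totient W : ℝ) * ∏ p ∈ T, g p| ≤ ∑ b ∈ RT W r Cl T, |EV X (W * ∏ l ∈ T, l) b| by
        rw [← h2] at key
        refine le_trans (le_of_eq ?_) key
        congr!
      have h3 : ∀ b ∈ RT W r Cl T, ∑ m ∈ (Icc 1 ⌊3 * X⌋₊).filter (fun m => m ≡ b [MOD (W * ∏ l ∈ T, l)]), vt X m * ArithmeticFunction.vonMangoldt m =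
          EV X (W * ∏ l ∈ T, l) b + (1 / (Nat.totient (W * ∏ l ∈ T, l) : ℝ)) * M := by
        intro b _
        unfold EV
        rw [← hM]
        ring
      rw [sum_congr rfl h3, sum_add_distrib, sum_const, nsmul_eq_mul, RT_card W r hW hr Cl (fun l a ha => ((hCl l).2 a ha).2) T hTp]
      have hco : Nat.Coprime W (∏ l ∈ T, l) := Nat.Coprime.prod_right fun l hl => ((Nat.Prime.coprime_iff_not_dvd (hTp l hl).1).2 (hTp l hl).2).symm
      have h4 : Nat.totient (∏ l ∈ T, l) = ∏ l ∈ T, (l - 1) := by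
        clear h2 h3 hco
        induction T using Finset.induction_on with
        | empty => simp
        | insert l T hl ih =>
          have hlp := (hTp l (mem_insert_self l T)).1
          have hT2 : ∀ q ∈ T, q.Prime ∧ ¬ q ∣ W := fun q hq => hTp q (mem_insert_of_mem hq)
          rw [prod_insert hl, prod_insert hl, Nat.totient_mul, Nat.totient_prime hlp,
            ih (fun q hq => hT (mem_insert_of_mem hq)) (by
              refine le_trans ?_ ‹∏ p ∈ insert l T, p ≤ _›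
              rw [prod_insert hl]
              exact Nat.le_mul_of_pos_left _ hlp.pos) hT2]
          apply Nat.Coprime.prod_right
          intro q hq
          rw [Nat.coprime_primes hlp (hT2 q hq).1]
          rintro rfl
          exact hl hq
      have h5 : ((∏ l ∈ T, (l - 1) : ℕ) : ℝ) = ∏ l ∈ T, ((l : ℝ) - 1) := by
        rw [Nat.cast_prod]
        apply prod_congr rfl
        intro l hl
        rw [Nat.cast_sub (hTp l hl).1.one_lt.le, Nat.cast_one]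
      have h6 : M / (Nat.totient W : ℝ) * ∏ p ∈ T, g p = ((∏ l ∈ T, (Cl l).card : ℕ) : ℝ) * ((1 / (Nat.totient (W * ∏ l ∈ T, l) : ℝ)) * M) := by
        rw [Nat.totient_mul hco, h4, Nat.cast_mul, h5, hg, prod_div_distrib, Nat.cast_prod]
        have h7 : ∏ l ∈ T, ((l : ℝ) - 1) ≠ 0 := by
          apply prod_ne_zero_iff.2
          intro l hl
          have : (2 : ℝ) ≤ l := by exact_mod_cast (hTp l hl).1.two_le
          linarith
        field_simp
      rw [h6, add_sub_cancel_right]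
      exact abs_sum_le_sum_abs _ _)
  -- the errors
  have herr : ∑ T ∈ P.powerset.filter (fun T : Finset ℕ => ∏ p ∈ T, p ≤ (2 ^ 2 ^ J) ^ (C0 * K)),
      ∑ b ∈ RT W r Cl T, |EV X (W * ∏ l ∈ T, l) b| ≤ X / Real.log X ^ 4 := by
    refine le_trans ?_ (hbv B hB1)
    have h2 : ∀ T ∈ P.powerset.filter (fun T : Finset ℕ => ∏ p ∈ T, p ≤ (2 ^ 2 ^ J) ^ (C0 * K)),
        ∑ b ∈ RT W r Cl T, |EV X (W * ∏ l ∈ T, l) b| ≤
          (fun q : ℕ => (q.divisors.card : ℝ) ^ 1 * |EV X (W * q) (B q)|) (∏ l ∈ T, l) := by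
      intro T hT
      rw [mem_filter, mem_powerset] at hT
      exact hB2 T fun l hl => ⟨(hPm l (hT.1 hl)).1, hWp l (hPm l (hT.1 hl)).1 (hPm l (hT.1 hl)).2.1⟩
    refine (sum_le_sum h2).trans ?_
    have hinj : Set.InjOn (fun T : Finset ℕ => ∏ l ∈ T, l) (P.powerset.filter (fun T : Finset ℕ => ∏ p ∈ T, p ≤ (2 ^ 2 ^ J) ^ (C0 * K)) : Set (Finset ℕ)) := by
      intro s hs t ht hst
      rw [mem_coe, mem_filter, mem_powerset] at hs ht
      have h3 : (∏ p ∈ s, p).primeFactors = s := Nat.primeFactors_prod fun p hp => (hPm p (hs.1 hp)).1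
      have h4 : (∏ p ∈ t, p).primeFactors = t := Nat.primeFactors_prod fun p hp => (hPm p (ht.1 hp)).1
      have h5 : ∏ p ∈ s, p = ∏ p ∈ t, p := hst
      rw [← h3, h5, h4]
    rw [← sum_image (f := fun q : ℕ => (q.divisors.card : ℝ) ^ 1 * |EV X (W * q) (B q)|) (g := fun T : Finset ℕ => ∏ l ∈ T, l) hinj]
    apply sum_le_sum_of_subset_of_nonneg
    · intro q hq
      rw [mem_image] at hq
      obtain ⟨T, hT, rfl⟩ := hq
      rw [mem_filter, mem_powerset] at hT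
      have hTp : ∀ l ∈ T, l.Prime := fun l hl => (hPm l (hT.1 hl)).1
      rw [mem_filter, mem_Icc]
      refine ⟨⟨Nat.succ_le_of_lt (prod_pos fun p hp => (hTp p hp).pos), ?_⟩, ?_⟩
      · apply Nat.le_floor
        refine le_trans ?_ hJ
        exact_mod_cast hT.2
      · refine Finset.squarefree_prod_of_pairwise_isCoprime (fun a ha b hb hab ↦ ?_)
          fun a ha ↦ (hTp a ha).squarefree
        simp only [← Nat.coprime_iff_isRelPrime]
        exact (Nat.coprime_primes (hTp a ha) (hTp b hb)).mpr hab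
    · intro q _ _
      positivity
  have h1' : |∑ m ∈ ((Icc 1 ⌊3 * X⌋₊).filter (fun m => m ≡ r [MOD W])).filter (fun m => ∀ p ∈ P, ¬ m % p ∈ Cl p), vt X m * ArithmeticFunction.vonMangoldt m -
      M / (Nat.totient W : ℝ) * ∏ p ∈ P, (1 - g p)| ≤ (1 / 2 : ℝ) ^ K * (M / (Nat.totient W : ℝ) * ∏ p ∈ P, (1 - g p)) +
        ((J : ℝ) + 2) * ∑ T ∈ P.powerset.filter (fun T : Finset ℕ => ∏ p ∈ T, p ≤ (2 ^ 2 ^ J) ^ (C0 * K)),
          ∑ b ∈ RT W r Cl T, |EV X (W * ∏ l ∈ T, l) b| := by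
    refine le_trans (le_of_eq ?_) (le_trans h1 (le_of_eq ?_))
    · congr!
    · congr!
  have h2 := (abs_le.1 h1').1
  obtain ⟨V, hVd⟩ : ∃ V : ℝ, V = ∏ p ∈ P, (1 - g p) := ⟨_, rfl⟩
  rw [← hVd] at h2
  have hVl : c / 4 ^ J ≤ V := by
    refine (hV K J hK2).trans ?_
    rw [hVd, ← hP]
    apply Finset.prod_le_prod
    · intro p hp
      have h3 : (17 : ℝ) ≤ p := by
        have := (hPm p hp).2.1
        exact_mod_cast (by omega : 17 ≤ p)
      rw [sub_nonneg, div_le_one (by linarith)]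
      linarith
    · intro p hp
      have := (hg2 p hp).2
      linarith
  have hcJ : 0 < c / 4 ^ J := by positivity
  have h3 : (1 / 2 : ℝ) ^ K ≤ 1 / 2 := by
    calc (1 / 2 : ℝ) ^ K ≤ (1 / 2 : ℝ) ^ 1 := pow_le_pow_of_le_one (by norm_num) (by norm_num) (by omega)
      _ = 1 / 2 := pow_one _
  have hV0 : 0 ≤ V := hcJ.le.trans hVl
  have hA0 : 0 ≤ M / (Nat.totient W : ℝ) * V := mul_nonneg (div_nonneg hM0 hφ.le) hV0
  have h4 : (1 / 2 : ℝ) ^ K * (M / (Nat.totient W : ℝ) * V) ≤ 1 / 2 * (M / (Nat.totient W : ℝ) * V) := mul_le_mul_of_nonneg_right h3 hA0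
  have h5 : ((J : ℝ) + 2) * ∑ T ∈ P.powerset.filter (fun T : Finset ℕ => ∏ p ∈ T, p ≤ (2 ^ 2 ^ J) ^ (C0 * K)),
      ∑ b ∈ RT W r Cl T, |EV X (W * ∏ l ∈ T, l) b| ≤ (J + 2) * (X / Real.log X ^ 4) := mul_le_mul_of_nonneg_left herr (by positivity)
  have h6 : c / 20 * X / (W * 4 ^ J) ≤ 1 / 2 * (M / (Nat.totient W : ℝ) * V) := by
    have h7 : (Nat.totient W : ℝ) ≤ W := by exact_mod_cast Nat.totient_le W
    have h8 : X / 10 / W ≤ M / (Nat.totient W : ℝ) := div_le_div₀ hM0 hmass hφ h7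
    have hWr : (0 : ℝ) < W := by exact_mod_cast hW
    calc c / 20 * X / (W * 4 ^ J) = 1 / 2 * (X / 10 / W * (c / 4 ^ J)) := by
          field_simp
          norm_num
      _ ≤ _ := by
          apply mul_le_mul_of_nonneg_left _ (by norm_num)
          exact mul_le_mul h8 hVl hcJ.le (div_nonneg hM0 hφ.le)
  have h9 : ∑ m ∈ ((Icc 1 ⌊3 * X⌋₊).filter (fun m => m ≡ r [MOD W])).filter (fun m => ∀ p ∈ P, ¬ m % p ∈ Cl p), vt X m * ArithmeticFunction.vonMangoldt m =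
      ∑ m ∈ ((Icc 1 ⌊3 * X⌋₊).filter (fun m => m ≡ r [MOD W])).filter
        (fun m => ∀ p : ℕ, p.Prime → K < p → p < 2 ^ 2 ^ J → m % p ∉ Cl p), vt X m * ArithmeticFunction.vonMangoldt m := by
    apply sum_congr _ fun _ _ => rfl
    apply filter_congr
    intro m _
    constructor
    · intro h p hp h1 h2
      apply h
      rw [hP, mem_filter, mem_range]
      exact ⟨h2, hp, h1⟩
    · intro h p hp
      rw [hP, mem_filter, mem_range] at hp
      exact h p hp.2.1 hp.2.2 hp.1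
  rw [← h9]
  linarith

end Run7.h870.BS
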