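import Pool.Agent.Run7.h870.BS.Sw

/-!
# The sieve over primes: the number of primes
-/

set_option autoImplicit false
set_option linter.all false

namespace Run7.h870.BS

open Finset Filter Topology
open scoped Classical

/-- the primes counted -/
noncomputable def PS (K W r : ℕ) (Cl : ℕ → Finset ℕ) (X z : ℝ) : Finset ℕ :=
  (Icc 1 ⌊3 * X⌋₊).filter (fun m : ℕ => m.Prime ∧ X < m ∧ (m : ℝ) < 2 * X ∧ m ≡ r [MOD W] ∧
    ∀ l : ℕ, l.Prime → K < l → (l : ℝ) < z → m % l ∉ Cl l)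

theorem unweight (X : ℝ) (hX : 1 ≤ X) (S : Finset ℕ) (hS : ∀ m ∈ S, 1 ≤ m) :
    ∑ m ∈ S, vt X m * ArithmeticFunction.vonMangoldt m ≤
      ((S.filter (fun m : ℕ => m.Prime ∧ X < m ∧ (m : ℝ) < 2 * X)).card : ℝ) * Real.log (2 * X) + 2 * √(2 * X) * Real.log (2 * X) := by
  have hX0 : 0 < X := by linarith
  have hlog : 0 ≤ Real.log (2 * X) := Real.log_nonneg (by linarith)
  rw [← sum_filter_add_sum_filter_not S (fun m : ℕ => m.Prime ∧ X < m ∧ (m : ℝ) < 2 * X)]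
  apply add_le_add
  · rw [← nsmul_eq_mul]
    apply sum_le_card_nsmul
    intro m hm
    rw [mem_filter] at hm
    have h1 := vt_le X hX0 m (hS m hm.1)
    have h2 := vt_nonneg X hX0 m (hS m hm.1)
    rw [ArithmeticFunction.vonMangoldt_apply_prime hm.2.1]
    have hm0 : (0 : ℝ) < m := by exact_mod_cast hS m hm.1
    have h3 : Real.log m ≤ Real.log (2 * X) := Real.log_le_log hm0 hm.2.2.2.le
    have h4 : 0 ≤ Real.log m := Real.log_nonneg (by exact_mod_cast hS m hm.1)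
    calc vt X m * Real.log m ≤ 1 * Real.log m := mul_le_mul_of_nonneg_right h1 h4
      _ ≤ _ := by rw [one_mul]; exact h3
  · have h5 := Chebyshev.psi_sub_theta_le (x := 2 * X) (by linarith)
    rw [Chebyshev.psi_sub_theta_eq_sum_not_prime] at h5
    refine le_trans ?_ h5
    have h6 : ∑ m ∈ S.filter (fun m : ℕ => ¬ (m.Prime ∧ X < m ∧ (m : ℝ) < 2 * X)), vt X m * ArithmeticFunction.vonMangoldt m =
        ∑ m ∈ (S.filter (fun m : ℕ => ¬ (m.Prime ∧ X < m ∧ (m : ℝ) < 2 * X))).filter (fun m => vt X m ≠ 0), vt X m * ArithmeticFunction.vonMangoldt m := by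
      symm
      apply sum_filter_of_ne
      intro m _ h h0
      rw [h0, zero_mul] at h
      exact h rfl
    rw [h6]
    have h7 : ∀ m ∈ (S.filter (fun m : ℕ => ¬ (m.Prime ∧ X < m ∧ (m : ℝ) < 2 * X))).filter (fun m => vt X m ≠ 0),
        vt X m * ArithmeticFunction.vonMangoldt m ≤ ArithmeticFunction.vonMangoldt m := by
      intro m hm
      rw [mem_filter, mem_filter] at hm
      have h1 := vt_le X hX0 m (hS m hm.1.1)
      calc _ ≤ 1 * ArithmeticFunction.vonMangoldt m := mul_le_mul_of_nonneg_right h1 ArithmeticFunction.vonMangoldt_nonneg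
        _ = _ := one_mul _
    refine (sum_le_sum h7).trans ?_
    apply sum_le_sum_of_subset_of_nonneg
    · intro m hm
      rw [mem_filter, mem_filter] at hm
      have hm1 := hS m hm.1.1
      have h8 := vt_supp X hX0 m hm1 hm.2
      rw [mem_filter, mem_Ioc]
      refine ⟨⟨hm1, Nat.le_floor h8.2.le⟩, fun hp => hm.1.2 ⟨hp, h8.1, h8.2⟩⟩
    · intro m _ _
      exact ArithmeticFunction.vonMangoldt_nonneg

/-- **the sieve over primes** -/
theorem primes : ∃ K : ℕ, 16 ≤ K ∧ ∀ W : ℕ, 0 < W → (∀ p : ℕ, p.Prime → K < p → ¬ p ∣ W) → ∃ δ c : ℝ, 0 < δ ∧ δ < 1 ∧ 0 < c ∧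
    ∀ᶠ X : ℝ in atTop, ∀ r : ℕ, r < W → r.Coprime W →
    ∀ Cl : ℕ → Finset ℕ, (∀ l, (Cl l).card ≤ 2 ∧ ∀ a ∈ Cl l, 0 < a ∧ a < l) →
    c * (X / Real.log X ^ 3) ≤ ((PS K W r Cl X (X ^ δ)).card : ℝ) := by
  obtain ⟨K, U, hK, hU, c, hc, hs⟩ := sieve
  refine ⟨K, hK, fun W hW hWp => ?_⟩
  have hWr : (0 : ℝ) < W := by exact_mod_cast hW
  have hU8 : (8 : ℝ) ≤ ((8 * U : ℕ) : ℝ) := by exact_mod_cast (by omega : 8 ≤ 8 * U)
  refine ⟨((8 * U : ℕ) : ℝ)⁻¹, c / (64 * W), by positivity, ?_, by positivity, ?_⟩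
  · rw [inv_lt_one_iff₀]
    right
    linarith
  have hlogt : Tendsto Real.log atTop atTop := Real.tendsto_log_atTop
  have e1 : ∀ᶠ X : ℝ in atTop, 64 * W / c ≤ Real.log X := hlogt.eventually_ge_atTop _
  have e2 : ∀ᶠ X : ℝ in atTop, Real.log X ^ 3 ≤ X ^ (1 / 4 : ℝ) * (c / (128 * W)) := by
    have h1 := isLittleO_log_rpow_rpow_atTop (3 : ℝ) (by norm_num : (0 : ℝ) < 1 / 4)
    have h3 := h1.bound (by positivity : (0 : ℝ) < c / (128 * W))
    filter_upwards [h3, eventually_ge_atTop (1:ℝ)] with X hX hX1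
    have hL : 0 ≤ Real.log X := Real.log_nonneg hX1
    have hXs : 0 ≤ X ^ (1 / 4 : ℝ) := by positivity
    have hLk : 0 ≤ Real.log X ^ 3 := by positivity
    have h4 : Real.log X ^ (3 : ℝ) = Real.log X ^ 3 := by
      rw [← Real.rpow_natCast]
      norm_num
    rw [h4, Real.norm_eq_abs, Real.norm_eq_abs, abs_of_nonneg hLk, abs_of_nonneg hXs] at hX
    linarith
  filter_upwards [hs W hW hWp, e1, e2, eventually_ge_atTop ((2 : ℝ) ^ (4 * U) + 16)] with X hsX he1 he2 hXb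
  intro r hr hrW Cl hCl
  have hX16 : 16 ≤ X := by
    have : (0 : ℝ) < 2 ^ (4 * U) := by positivity
    linarith
  have hX0 : 0 < X := by linarith
  obtain ⟨N, hN⟩ : ∃ N, N = ⌊X⌋₊ := ⟨_, rfl⟩
  have hNX : (N : ℝ) ≤ X := by rw [hN]; exact Nat.floor_le hX0.le
  have hXN : X < N + 1 := by rw [hN]; exact Nat.lt_floor_add_one X
  have hN1 : 2 ^ (4 * U) ≤ N := by
    rw [hN]
    apply Nat.le_floor
    push_cast
    linarith
  have hN16 : 16 ≤ N := by
    rw [hN]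
    apply Nat.le_floor
    exact_mod_cast hX16
  obtain ⟨m, hm⟩ : ∃ m, m = Nat.log 2 N / (4 * U) := ⟨_, rfl⟩
  have hm1 : 1 ≤ m := by
    rw [hm]
    have h1 : 4 * U ≤ Nat.log 2 N := Nat.le_log_of_pow_le (by norm_num) hN1
    exact (Nat.one_le_div_iff (by omega)).2 h1
  obtain ⟨J, hJ⟩ : ∃ J, J = Nat.log 2 m := ⟨_, rfl⟩
  have hJ1 : 2 ^ J ≤ m := by rw [hJ]; exact Nat.pow_log_le_self 2 (by omega)
  have hJ2 : m < 2 ^ (J + 1) := by rw [hJ]; exact Nat.lt_pow_succ_log_self (by norm_num) m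
  obtain ⟨z, hz⟩ : ∃ z, z = 2 ^ 2 ^ J := ⟨_, rfl⟩
  have hmW : m * (4 * U) ≤ Nat.log 2 N := by rw [hm]; exact Nat.div_mul_le_self _ _
  have hzn : (z ^ U) ^ 4 ≤ N := by
    rw [hz, ← pow_mul, ← pow_mul]
    refine (Nat.pow_le_pow_right (by norm_num) ?_).trans (Nat.pow_log_le_self 2 (by omega))
    calc 2 ^ J * (U * 4) = 2 ^ J * (4 * U) := by ring
      _ ≤ _ := (Nat.mul_le_mul_right _ hJ1).trans hmW
  have hnz : N + 1 ≤ z ^ (8 * U) := by
    rw [hz, ← pow_mul]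
    refine (Nat.lt_pow_succ_log_self (by norm_num : 1 < 2) N).trans_le (Nat.pow_le_pow_right (by norm_num) ?_)
    have h1 : Nat.log 2 N < 4 * U * (Nat.log 2 N / (4 * U) + 1) := Nat.lt_mul_div_succ _ (by omega)
    rw [← hm] at h1
    have h2 : 4 * U * (m + 1) ≤ 4 * U * 2 ^ (J + 1) := Nat.mul_le_mul_left _ hJ2
    have h3 : 4 * U * 2 ^ (J + 1) = 2 ^ J * (8 * U) := by rw [pow_succ]; ring
    omega
  have hδ : X ^ ((8 * U : ℕ) : ℝ)⁻¹ ≤ z := by
    have h1 : X ≤ (z : ℝ) ^ (8 * U) := by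
      refine hXN.le.trans ?_
      exact_mod_cast hnz
    have h2 := Real.rpow_le_rpow hX0.le h1 (by positivity : (0 : ℝ) ≤ ((8 * U : ℕ) : ℝ)⁻¹)
    rwa [Real.pow_rpow_inv_natCast (Nat.cast_nonneg z) (by omega)] at h2
  have hlev : (((2 ^ 2 ^ J) ^ U : ℕ) : ℝ) ≤ X ^ (1 / 4 : ℝ) := by
    rw [← hz]
    have h1 : ((z ^ U : ℕ) : ℝ) ^ 4 ≤ X := by
      refine le_trans ?_ hNX
      exact_mod_cast hzn
    have h2 := Real.rpow_le_rpow (by positivity) h1 (by norm_num : (0 : ℝ) ≤ ((4 : ℕ) : ℝ)⁻¹)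
    rw [Real.pow_rpow_inv_natCast (Nat.cast_nonneg _) (by norm_num)] at h2
    refine h2.trans (le_of_eq ?_)
    norm_num
  have hsv := hsX J hlev r hr hrW Cl hCl
  have hlog : 0 < Real.log X := Real.log_pos (by linarith)
  have hJl : (2 : ℝ) ^ J ≤ 2 * Real.log X := by
    have h1 : (2 : ℝ) ^ J ≤ Nat.log 2 N := by
      have h2 : 2 ^ J ≤ Nat.log 2 N := by
        refine hJ1.trans (le_trans ?_ hmW)
        exact Nat.le_mul_of_pos_right _ (by omega)
      exact_mod_cast h2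
    have h2 : (2 : ℝ) ^ Nat.log 2 N ≤ N := by exact_mod_cast Nat.pow_log_le_self 2 (by omega : N ≠ 0)
    have h3 := Real.log_le_log (by positivity) (h2.trans hNX)
    rw [Real.log_pow] at h3
    have h4 := Real.log_two_gt_d9
    have h5 : (0 : ℝ) ≤ Nat.log 2 N := Nat.cast_nonneg _
    nlinarith
  have hJ3 : (J : ℝ) + 2 ≤ 2 * 2 ^ J := by
    have h1 : ∀ j : ℕ, j + 2 ≤ 2 * 2 ^ j := by
      intro j
      induction j with
      | zero => norm_num
      | succ j ih =>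
        rw [pow_succ]
        omega
    exact_mod_cast h1 J
  -- the unweighted count
  obtain ⟨S, hS⟩ : ∃ S, S = ((Icc 1 ⌊3 * X⌋₊).filter (fun m => m ≡ r [MOD W])).filter
        (fun m => ∀ p : ℕ, p.Prime → K < p → p < 2 ^ 2 ^ J → m % p ∉ Cl p) := ⟨_, rfl⟩
  rw [← hS] at hsv
  have hun := unweight X (by linarith) S (by
    intro m hm
    rw [hS, mem_filter, mem_filter, mem_Icc] at hm
    exact hm.1.1.1)
  have hsub : (S.filter (fun m : ℕ => m.Prime ∧ X < m ∧ (m : ℝ) < 2 * X)) ⊆ PS K W r Cl X (X ^ ((8 * U : ℕ) : ℝ)⁻¹) := by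
    intro m hm
    rw [mem_filter, hS, mem_filter, mem_filter] at hm
    unfold PS
    rw [mem_filter]
    refine ⟨hm.1.1.1, hm.2.1, hm.2.2.1, hm.2.2.2, hm.1.1.2, fun l hl hKl hlz => ?_⟩
    apply hm.1.2 l hl hKl
    rw [← hz]
    exact_mod_cast hlz.trans_le hδ
  have hcard : ((S.filter (fun m : ℕ => m.Prime ∧ X < m ∧ (m : ℝ) < 2 * X)).card : ℝ) ≤ (PS K W r Cl X (X ^ ((8 * U : ℕ) : ℝ)⁻¹)).card := by
    exact_mod_cast card_le_card hsub
  obtain ⟨G, hG⟩ : ∃ G : ℝ, G = (PS K W r Cl X (X ^ ((8 * U : ℕ) : ℝ)⁻¹)).card := ⟨_, rfl⟩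
  rw [← hG] at hcard ⊢
  have hG0 : 0 ≤ G := by rw [hG]; exact Nat.cast_nonneg _
  obtain ⟨L, hL⟩ : ∃ L, L = Real.log X := ⟨_, rfl⟩
  rw [← hL] at hsv hlog hJl he1 he2 ⊢
  have hL2 : Real.log (2 * X) ≤ 2 * L := by
    rw [Real.log_mul (by norm_num) hX0.ne', ← hL]
    have h1 : Real.log 2 ≤ Real.log X := Real.log_le_log (by norm_num) (by linarith)
    rw [← hL] at h1
    linarith
  have hL20 : 0 ≤ Real.log (2 * X) := Real.log_nonneg (by linarith)
  -- lower bound of the main term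
  have hmain : c * X / (W * (4 * L ^ 2)) ≤ c * X / (W * 4 ^ J) := by
    apply div_le_div_of_nonneg_left (by positivity) (by positivity)
    apply mul_le_mul_of_nonneg_left _ hWr.le
    calc (4 : ℝ) ^ J = (2 ^ J) ^ 2 := by rw [← pow_mul, mul_comm J 2, pow_mul]; norm_num
      _ ≤ (2 * L) ^ 2 := pow_le_pow_left₀ (by positivity) hJl 2
      _ = 4 * L ^ 2 := by ring
  have herr : (J + 2) * (X / L ^ 4) ≤ c * X / (16 * W * L ^ 2) := by
    have h1 : (J : ℝ) + 2 ≤ 4 * L := by linarith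
    calc (J + 2) * (X / L ^ 4) ≤ 4 * L * (X / L ^ 4) := mul_le_mul_of_nonneg_right h1 (by positivity)
      _ = 4 * X / L ^ 3 := by field_simp
      _ ≤ c * X / (16 * W * L ^ 2) := by
          rw [div_le_div_iff₀ (by positivity) (by positivity)]
          rw [div_le_iff₀ hc] at he1
          have h2 : 64 * W * (X * L ^ 2) ≤ L * c * (X * L ^ 2) := mul_le_mul_of_nonneg_right he1 (by positivity)
          nlinarith
  have hpp : 2 * √(2 * X) * Real.log (2 * X) ≤ c * X / (16 * W * L ^ 2) := by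
    have h1 : √(2 * X) ≤ 2 * X ^ (1 / 2 : ℝ) := by
      rw [Real.sqrt_eq_rpow, Real.mul_rpow (by norm_num) hX0.le]
      apply mul_le_mul_of_nonneg_right _ (by positivity)
      calc (2 : ℝ) ^ (1 / 2 : ℝ) ≤ 2 ^ (1 : ℝ) := Real.rpow_le_rpow_of_exponent_le (by norm_num) (by norm_num)
        _ = 2 := Real.rpow_one 2
    have h2 : 2 * √(2 * X) * Real.log (2 * X) ≤ 2 * (2 * X ^ (1 / 2 : ℝ)) * (2 * L) := by
      apply mul_le_mul (mul_le_mul_of_nonneg_left h1 (by norm_num)) hL2 hL20 (by positivity)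
    refine h2.trans ?_
    rw [le_div_iff₀ (by positivity)]
    have h3 : X ^ (1 / 2 : ℝ) * X ^ (1 / 4 : ℝ) ≤ X := by
      rw [← Real.rpow_add hX0]
      calc X ^ (1 / 2 + 1 / 4 : ℝ) ≤ X ^ (1 : ℝ) := Real.rpow_le_rpow_of_exponent_le (by linarith) (by norm_num)
        _ = X := Real.rpow_one X
    calc 2 * (2 * X ^ (1 / 2 : ℝ)) * (2 * L) * (16 * W * L ^ 2) = 128 * W * X ^ (1 / 2 : ℝ) * L ^ 3 := by ring
      _ ≤ 128 * W * X ^ (1 / 2 : ℝ) * (X ^ (1 / 4 : ℝ) * (c / (128 * W))) := mul_le_mul_of_nonneg_left he2 (by positivity)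
      _ = c * (X ^ (1 / 2 : ℝ) * X ^ (1 / 4 : ℝ)) := by field_simp
      _ ≤ c * X := mul_le_mul_of_nonneg_left h3 hc.le
  have hfin : c * X / (8 * W * L ^ 2) ≤ G * (2 * L) := by
    have h1 : ((S.filter (fun m : ℕ => m.Prime ∧ X < m ∧ (m : ℝ) < 2 * X)).card : ℝ) * Real.log (2 * X) ≤ G * (2 * L) := by
      apply mul_le_mul hcard hL2 hL20 hG0
    have h2 : c * X / (W * (4 * L ^ 2)) = c * X / (16 * W * L ^ 2) + c * X / (16 * W * L ^ 2) + c * X / (8 * W * L ^ 2) := by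
      field_simp
      norm_num
    linarith
  calc c / (64 * W) * (X / L ^ 3) ≤ c / (16 * W) * (X / L ^ 3) := by
        apply mul_le_mul_of_nonneg_right _ (by positivity)
        apply div_le_div_of_nonneg_left hc.le (by positivity)
        linarith
    _ = c * X / (8 * W * L ^ 2) / (2 * L) := by
        field_simp
        norm_num
    _ ≤ G := by
        rw [div_le_iff₀ (by positivity)]
        exact hfin

end Run7.h870.BS
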