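import Pool.Agent.Run7.h870.BS.Sx

/-!
# Two linear forms in a prime
-/

set_option autoImplicit false
set_option linter.all false

namespace Run7.h870.BS

open Finset Filter Topology
open scoped Classical

/-- the bad classes -/
noncomputable def bad (A B e f : ℤ) (l : ℕ) : Finset ℕ :=
  (range l).filter (fun a : ℕ => 0 < a ∧ ((l : ℤ) ∣ A + e * a ∨ (l : ℤ) ∣ B + f * a))

theorem one_class (l : ℕ) (hl : l.Prime) (A e : ℤ) (he : ¬ (l : ℤ) ∣ e) :
    ((range l).filter (fun a : ℕ => (l : ℤ) ∣ A + e * a)).card ≤ 1 := by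
  rw [card_le_one]
  intro a ha b hb
  rw [mem_filter, mem_range] at ha hb
  have h1 := dvd_sub ha.2 hb.2
  have h2 : A + e * a - (A + e * b) = e * ((a : ℤ) - b) := by ring
  rw [h2] at h1
  rcases (Nat.prime_iff_prime_int.1 hl).dvd_or_dvd h1 with h3 | h3
  · exact absurd h3 he
  · have h4 : (a : ℤ) ≡ b [ZMOD l] := (Int.modEq_iff_dvd.2 (by
      have := (dvd_neg (a := (l : ℤ))).2 h3
      rwa [neg_sub] at this))
    have h5 : a ≡ b [MOD l] := by exact_mod_cast h4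
    exact Nat.ModEq.eq_of_lt_of_lt h5 ha.1 hb.1

theorem bad_card (l : ℕ) (hl : l.Prime) (A B e f : ℤ) (he : ¬ (l : ℤ) ∣ e) (hf : ¬ (l : ℤ) ∣ f) :
    (bad A B e f l).card ≤ 2 := by
  have h1 : bad A B e f l ⊆ (range l).filter (fun a : ℕ => (l : ℤ) ∣ A + e * a) ∪ (range l).filter (fun a : ℕ => (l : ℤ) ∣ B + f * a) := by
    intro a ha
    unfold bad at ha
    rw [mem_filter] at ha
    rw [mem_union, mem_filter, mem_filter]
    rcases ha.2.2 with h | h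
    · exact Or.inl ⟨ha.1, h⟩
    · exact Or.inr ⟨ha.1, h⟩
  have h2 := one_class l hl A e he
  have h3 := one_class l hl B f hf
  have h4 := card_le_card h1
  have h5 := card_union_le ((range l).filter (fun a : ℕ => (l : ℤ) ∣ A + e * a)) ((range l).filter (fun a : ℕ => (l : ℤ) ∣ B + f * a))
  omega

/-- a good class for every prime at least `5` -/
theorem good5 (l : ℕ) (hl : l.Prime) (h5 : 5 ≤ l) (A B e f : ℤ) (he : ¬ (l : ℤ) ∣ e) (hf : ¬ (l : ℤ) ∣ f) :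
    ∃ a : ℕ, ¬ l ∣ a ∧ ¬ (l : ℤ) ∣ A + e * a ∧ ¬ (l : ℤ) ∣ B + f * a := by
  have h1 := bad_card l hl A B e f he hf
  obtain ⟨a, ha, hab⟩ : ∃ a ∈ Icc 1 (l - 1), a ∉ bad A B e f l := by
    by_contra hc
    push Not at hc
    have h2 : Icc 1 (l - 1) ⊆ bad A B e f l := fun a ha => hc a ha
    have h3 := card_le_card h2
    rw [Nat.card_Icc] at h3
    omega
  rw [mem_Icc] at ha
  unfold bad at hab
  rw [mem_filter, mem_range] at hab
  push Not at hab
  have h3 := hab (by omega) (by omega)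
  refine ⟨a, fun hd => ?_, h3.1, h3.2⟩
  have := Nat.le_of_dvd (by omega) hd
  omega

/-- the class modulo the small primes -/
theorem small (K : ℕ) (A B e f : ℤ)
    (H : ∀ l : ℕ, l.Prime → ∃ a : ℕ, ¬ l ∣ a ∧ ¬ (l : ℤ) ∣ A + e * a ∧ ¬ (l : ℤ) ∣ B + f * a) :
    ∃ r : ℕ, r < K.factorial ∧ r.Coprime K.factorial ∧ ∀ m : ℕ, m ≡ r [MOD K.factorial] → ∀ l : ℕ, l.Prime → l ≤ K →
      ¬ (l : ℤ) ∣ A + e * m ∧ ¬ (l : ℤ) ∣ B + f * m := by
  choose a ha using H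
  obtain ⟨S, hS⟩ : ∃ S, S = (range (K + 1)).filter Nat.Prime := ⟨_, rfl⟩
  obtain ⟨k, hk⟩ := Nat.chineseRemainderOfFinset (fun l => if h : l.Prime then a l h else 0) (fun l => l) S (by
      intro l hl
      rw [hS, mem_filter] at hl
      exact hl.2.ne_zero) (by
      intro l hl q hq hlq
      rw [mem_coe, hS, mem_filter] at hl hq
      exact (Nat.coprime_primes hl.2 hq.2).2 hlq)
  have hW := Nat.factorial_pos K
  refine ⟨k % K.factorial, Nat.mod_lt _ hW, ?_, fun m hm l hl hlK => ?_⟩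
  · apply Nat.coprime_of_dvd
    intro p hp hpk hpK
    have h1 : p ≤ K := (Nat.Prime.dvd_factorial hp).1 hpK
    have h2 : p ∣ k := (Nat.dvd_mod_iff hpK).1 hpk
    have h3 := hk p (by rw [hS, mem_filter, mem_range]; exact ⟨by omega, hp⟩)
    rw [dif_pos hp] at h3
    exact (ha p hp).1 ((Nat.ModEq.dvd_iff h3 dvd_rfl).1 h2)
  · have h1 : l ∣ K.factorial := (Nat.Prime.dvd_factorial hl).2 hlK
    have h2 : m ≡ k [MOD l] := (Nat.ModEq.of_dvd h1 hm).trans (Nat.ModEq.of_dvd h1 (Nat.mod_modEq _ _))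
    have h3 := hk l (by rw [hS, mem_filter, mem_range]; exact ⟨by omega, hl⟩)
    rw [dif_pos hl] at h3
    have h4 : (m : ℤ) ≡ (a l hl : ℤ) [ZMOD (l : ℤ)] := by exact_mod_cast h2.trans h3
    have h5 : ∀ C g : ℤ, (l : ℤ) ∣ C + g * m → (l : ℤ) ∣ C + g * a l hl := by
      intro C g h
      have h6 : C + g * m ≡ C + g * a l hl [ZMOD (l : ℤ)] := (h4.mul_left g).add_left C
      exact (Int.ModEq.dvd_iff h6).1 h
    exact ⟨fun h => (ha l hl).2.1 (h5 _ _ h), fun h => (ha l hl).2.2 (h5 _ _ h)⟩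

/-- **two linear forms in a prime**, uniformly in the constants -/
theorem app : ∃ δ c : ℝ, 0 < δ ∧ δ < 1 ∧ 0 < c ∧ ∀ᶠ X : ℝ in atTop, ∀ A B e f : ℤ,
    (∀ l : ℕ, l.Prime → 3 ≤ l → ¬ (l : ℤ) ∣ e ∧ ¬ (l : ℤ) ∣ f) →
    (∃ a : ℕ, ¬ 2 ∣ a ∧ ¬ (2 : ℤ) ∣ A + e * a ∧ ¬ (2 : ℤ) ∣ B + f * a) →
    (∃ a : ℕ, ¬ 3 ∣ a ∧ ¬ (3 : ℤ) ∣ A + e * a ∧ ¬ (3 : ℤ) ∣ B + f * a) →
    c * (X / Real.log X ^ 3) ≤ (((Icc 1 ⌊3 * X⌋₊).filter (fun m : ℕ => m.Prime ∧ X < m ∧ (m : ℝ) < 2 * X ∧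
      ∀ l : ℕ, l.Prime → (l : ℤ) ∣ (A + e * m) * (B + f * m) → X ^ δ ≤ l)).card : ℝ) := by
  obtain ⟨K, hK, hs⟩ := primes
  obtain ⟨δ, c, hδ, hδ1, hc, hX⟩ := hs K.factorial (Nat.factorial_pos K) (by
    intro p hp h h2
    have := (Nat.Prime.dvd_factorial hp).1 h2
    omega)
  refine ⟨δ, c, hδ, hδ1, hc, ?_⟩
  filter_upwards [hX, eventually_ge_atTop 1] with X hX hX1
  intro A B e f hef h2 h3
  have H : ∀ l : ℕ, l.Prime → ∃ a : ℕ, ¬ l ∣ a ∧ ¬ (l : ℤ) ∣ A + e * a ∧ ¬ (l : ℤ) ∣ B + f * a := by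
    intro l hl
    rcases Nat.lt_or_ge l 5 with h | h
    · interval_cases l
      · exact absurd hl (by norm_num)
      · exact absurd hl (by norm_num)
      · exact_mod_cast h2
      · exact_mod_cast h3
      · exact absurd hl (by norm_num)
    · exact good5 l hl h A B e f (hef l hl (by omega)).1 (hef l hl (by omega)).2
  obtain ⟨r, hr, hrW, hrl⟩ := small K A B e f H
  obtain ⟨Cl, hCl⟩ : ∃ Cl : ℕ → Finset ℕ, Cl = fun l => if l.Prime ∧ K < l then bad A B e f l else ∅ := ⟨_, rfl⟩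
  have h1 := hX r hr hrW Cl (by
    intro l
    rw [hCl]
    by_cases hl : l.Prime ∧ K < l
    · simp only [if_pos hl]
      refine ⟨bad_card l hl.1 A B e f (hef l hl.1 (by omega)).1 (hef l hl.1 (by omega)).2, fun a ha => ?_⟩
      unfold bad at ha
      rw [mem_filter, mem_range] at ha
      exact ⟨ha.2.1, ha.1⟩
    · simp only [if_neg hl]
      exact ⟨by simp, fun a ha => absurd ha (notMem_empty a)⟩)
  refine h1.trans ?_
  rw [Nat.cast_le]
  apply card_le_card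
  intro m hm
  unfold PS at hm
  rw [mem_filter] at hm ⊢
  obtain ⟨hm0, hmp, hmX, hm2, hmr, hml⟩ := hm
  refine ⟨hm0, hmp, hmX, hm2, fun l hl hd => ?_⟩
  by_contra hlt
  rw [not_le] at hlt
  have hd2 := (Nat.prime_iff_prime_int.1 hl).dvd_or_dvd hd
  rcases Nat.lt_or_ge K l with hKl | hKl
  · have h4 := hml l hl hKl hlt
    apply h4
    rw [hCl]
    simp only [if_pos (⟨hl, hKl⟩ : l.Prime ∧ K < l)]
    unfold bad
    rw [mem_filter, mem_range]
    refine ⟨Nat.mod_lt _ hl.pos, ?_, ?_⟩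
    · rw [Nat.pos_iff_ne_zero]
      intro h0
      have h5 : l ∣ m := Nat.dvd_of_mod_eq_zero h0
      have h6 : l = m := (Nat.prime_dvd_prime_iff_eq hl hmp).1 h5
      have h7 : X ^ δ ≤ X := by
        calc X ^ δ ≤ X ^ (1 : ℝ) := Real.rpow_le_rpow_of_exponent_le hX1 hδ1.le
          _ = X := Real.rpow_one X
      rw [h6] at hlt
      linarith
    · have h8 : ∀ C g : ℤ, (l : ℤ) ∣ C + g * m → (l : ℤ) ∣ C + g * ((m % l : ℕ) : ℤ) := by
        intro C g h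
        have h9 : ((m % l : ℕ) : ℤ) ≡ (m : ℤ) [ZMOD (l : ℤ)] := by exact_mod_cast Nat.mod_modEq m l
        have h6 : C + g * ((m % l : ℕ) : ℤ) ≡ C + g * m [ZMOD (l : ℤ)] := (h9.mul_left g).add_left C
        exact (Int.ModEq.dvd_iff h6).2 h
      rcases hd2 with h | h
      · exact Or.inl (h8 _ _ h)
      · exact Or.inr (h8 _ _ h)
  · have h4 := hrl m hmr l hl hKl
    rcases hd2 with h | h
    · exact h4.1 h
    · exact h4.2 h

end Run7.h870.BS
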