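import Pool.Agent.Run7.h870.BS.Sy

/-!
# Two linear forms in a prime: almost primes
-/

set_option autoImplicit false
set_option linter.all false

namespace Run7.h870.BS

open Finset Filter Topology
open scoped Classical

theorem pow_Omega (t : ℝ) (ht : 1 ≤ t) : ∀ N : ℕ, 0 < N → (∀ l : ℕ, l.Prime → l ∣ N → t ≤ l) →
    t ^ ArithmeticFunction.cardFactors N ≤ N := by
  intro N
  induction N using Nat.strong_induction_on with
  | _ N ih =>
    intro hN h
    rcases Nat.lt_or_ge 1 N with h1 | h1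
    · have hp : (Nat.minFac N).Prime := Nat.minFac_prime (by omega)
      obtain ⟨M, hM⟩ := Nat.minFac_dvd N
      have hM0 : 0 < M := by
        rcases Nat.eq_zero_or_pos M with h0 | h0
        · rw [h0, mul_zero] at hM
          omega
        · exact h0
      have hMN : M < N := by
        have h2 := hp.two_le
        have h3 : 2 * M ≤ N := by
          calc 2 * M ≤ Nat.minFac N * M := Nat.mul_le_mul_right _ h2
            _ = N := hM.symm
        omega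
      have h2 := ih M hMN hM0 fun l hl hd => h l hl (by rw [hM]; exact hd.mul_left _)
      have h3 : ArithmeticFunction.cardFactors N = ArithmeticFunction.cardFactors M + 1 := by
        conv_lhs => rw [hM]
        rw [ArithmeticFunction.cardFactors_mul hp.ne_zero hM0.ne', ArithmeticFunction.cardFactors_apply_prime hp, add_comm]
      rw [h3, pow_succ]
      have h4 : t ≤ (Nat.minFac N : ℝ) := h _ hp (Nat.minFac_dvd N)
      calc t ^ ArithmeticFunction.cardFactors M * t ≤ (M : ℝ) * Nat.minFac N := mul_le_mul h2 h4 (by linarith) (Nat.cast_nonneg _)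
        _ = N := by
          conv_rhs => rw [hM]
          push_cast
          ring
    · have h2 : N = 1 := by omega
      rw [h2]
      simp

theorem Omega_le (δ : ℝ) (hδ : 0 < δ) : ∃ R : ℕ, ∀ n : ℕ, 2 ≤ n → ∀ N : ℕ, 0 < N → N ≤ n ^ 4 →
    (∀ l : ℕ, l.Prime → l ∣ N → (n : ℝ) ^ δ ≤ l) → ArithmeticFunction.cardFactors N ≤ R := by
  refine ⟨⌈4 / δ⌉₊, fun n hn N hN hNn h => ?_⟩
  have hn1 : (1 : ℝ) < n := by exact_mod_cast (by omega : 1 < n)
  have h1 := pow_Omega ((n : ℝ) ^ δ) (Real.one_le_rpow hn1.le hδ.le) N hN h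
  have h2 : (N : ℝ) ≤ (n : ℝ) ^ (4 : ℝ) := by
    have h3 : (n : ℝ) ^ (4 : ℝ) = ((n ^ 4 : ℕ) : ℝ) := by
      push_cast
      exact_mod_cast Real.rpow_natCast (n : ℝ) 4
    rw [h3]
    exact_mod_cast hNn
  have h3 := h1.trans h2
  rw [← Real.rpow_natCast, ← Real.rpow_mul (by linarith)] at h3
  have h4 := (Real.rpow_le_rpow_left_iff hn1).1 h3
  have h5 : (ArithmeticFunction.cardFactors N : ℝ) ≤ 4 / δ := by
    rw [le_div_iff₀ hδ]
    linarith
  exact_mod_cast h5.trans (Nat.le_ceil _)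

/-- two linear forms in a prime of `(s n, 2 s n)` -/
theorem appn (s : ℝ) (hs : 0 < s) (hs1 : s ≤ 1) : ∃ δ c : ℝ, 0 < δ ∧ 0 < c ∧ ∃ n₀ : ℕ, 2 ≤ n₀ ∧ ∀ n : ℕ, n₀ ≤ n → ∀ A B e f : ℤ,
    (∀ l : ℕ, l.Prime → 3 ≤ l → ¬ (l : ℤ) ∣ e ∧ ¬ (l : ℤ) ∣ f) →
    (∃ a : ℕ, ¬ 2 ∣ a ∧ ¬ (2 : ℤ) ∣ A + e * a ∧ ¬ (2 : ℤ) ∣ B + f * a) →
    (∃ a : ℕ, ¬ 3 ∣ a ∧ ¬ (3 : ℤ) ∣ A + e * a ∧ ¬ (3 : ℤ) ∣ B + f * a) →
    c * (n / Real.log n ^ 3) ≤ (((Icc 1 ⌊3 * (s * n)⌋₊).filter (fun m : ℕ => m.Prime ∧ s * n < m ∧ (m : ℝ) < 2 * (s * n) ∧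
      ∀ l : ℕ, l.Prime → (l : ℤ) ∣ (A + e * m) * (B + f * m) → (n : ℝ) ^ δ ≤ l)).card : ℝ) := by
  obtain ⟨δ, c, hδ, hδ1, hc, hX⟩ := app
  have ht : Tendsto (fun n : ℕ => s * (n : ℝ)) atTop atTop := tendsto_natCast_atTop_atTop.const_mul_atTop hs
  have e1 : ∀ᶠ n : ℕ in atTop, 1 / s ^ 2 ≤ (n : ℝ) := tendsto_natCast_atTop_atTop.eventually_ge_atTop _
  have e2 : ∀ᶠ n : ℕ in atTop, 3 ≤ s * (n : ℝ) := ht.eventually_ge_atTop _
  obtain ⟨n1, hn1⟩ := eventually_atTop.1 ((ht.eventually hX).and (e1.and e2))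
  refine ⟨δ / 2, c * s, by positivity, by positivity, max n1 2, le_max_right _ _, fun n hn A B e f hef h2 h3 => ?_⟩
  obtain ⟨h4, h5, h6⟩ := hn1 n (le_trans (le_max_left _ _) hn)
  have hn2 : 2 ≤ n := le_trans (le_max_right _ _) hn
  have hn0 : (0 : ℝ) < n := by exact_mod_cast (by omega : 0 < n)
  have h7 := h4 A B e f hef h2 h3
  have hsn : s * n ≤ n := by nlinarith
  have hl1 : 0 < Real.log (s * n) := Real.log_pos (by linarith)
  have hl2 : Real.log (s * n) ≤ Real.log n := Real.log_le_log (by linarith) hsn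
  have h8 : c * s * (n / Real.log n ^ 3) ≤ c * (s * n / Real.log (s * n) ^ 3) := by
    calc c * s * (n / Real.log n ^ 3) = c * (s * n / Real.log n ^ 3) := by ring
      _ ≤ _ := by
        apply mul_le_mul_of_nonneg_left _ hc.le
        apply div_le_div_of_nonneg_left (by positivity) (by positivity)
        exact pow_le_pow_left₀ hl1.le hl2 3
  refine h8.trans (h7.trans ?_)
  rw [Nat.cast_le]
  apply card_le_card
  intro m hm
  rw [mem_filter] at hm ⊢
  refine ⟨hm.1, hm.2.1, hm.2.2.1, hm.2.2.2.1, fun l hl hd => ?_⟩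
  refine le_trans ?_ (hm.2.2.2.2 l hl hd)
  -- `n ^ (δ/2) ≤ (s n) ^ δ`
  have h9 : (n : ℝ) ^ (1 / 2 : ℝ) ≤ s * n := by
    rw [← Real.sqrt_eq_rpow, Real.sqrt_le_left (by positivity)]
    rw [div_le_iff₀ (by positivity)] at h5
    calc (n : ℝ) = n * 1 := (mul_one _).symm
      _ ≤ n * (n * s ^ 2) := mul_le_mul_of_nonneg_left h5 hn0.le
      _ = (s * n) ^ 2 := by ring
  calc (n : ℝ) ^ (δ / 2) = ((n : ℝ) ^ (1 / 2 : ℝ)) ^ δ := by
        rw [← Real.rpow_mul hn0.le]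
        congr 1
        ring
    _ ≤ (s * n) ^ δ := Real.rpow_le_rpow (by positivity) h9 hδ.le

end Run7.h870.BS
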