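import Pool.Agent.Run7.h870.BS.Sz

/-!
# Two linear forms in a prime: a wrapper
-/

set_option autoImplicit false
set_option linter.all false

namespace Run7.h870.BS

open Finset Filter Topology
open scoped Classical

theorem wrap (s : ℝ) (hs : 0 < s) (hs1 : s ≤ 1) (A B e f : ℕ → ℤ) (F G : ℕ → ℕ → ℕ)
    (hF : ∀ n p : ℕ, 4 ≤ n → s * n < p → (p : ℝ) < 2 * (s * n) → (F n p : ℤ) = A n + e n * p ∧ 0 < F n p ∧ F n p ≤ n ^ 4)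
    (hG : ∀ n p : ℕ, 4 ≤ n → s * n < p → (p : ℝ) < 2 * (s * n) → (G n p : ℤ) = B n + f n * p ∧ 0 < G n p ∧ G n p ≤ n ^ 4)
    (hef : ∀ n l : ℕ, l.Prime → 3 ≤ l → ¬ (l : ℤ) ∣ e n ∧ ¬ (l : ℤ) ∣ f n)
    (h2 : ∀ n : ℕ, ∃ a : ℕ, ¬ 2 ∣ a ∧ ¬ (2 : ℤ) ∣ A n + e n * a ∧ ¬ (2 : ℤ) ∣ B n + f n * a)
    (h3 : ∀ n : ℕ, ∃ a : ℕ, ¬ 3 ∣ a ∧ ¬ (3 : ℤ) ∣ A n + e n * a ∧ ¬ (3 : ℤ) ∣ B n + f n * a) :
    ∃ (δ c : ℝ) (R : ℕ), 0 < δ ∧ 0 < c ∧ ∃ n₀ : ℕ, 2 ≤ n₀ ∧ ∀ n : ℕ, n₀ ≤ n → ∃ T : Finset ℕ,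
      c * (n / Real.log n ^ 3) ≤ (T.card : ℝ) ∧ ∀ p ∈ T, p.Prime ∧ s * n < p ∧ (p : ℝ) < 2 * (s * n) ∧
        (∀ l : ℕ, l.Prime → l ∣ F n p ∨ l ∣ G n p → (n : ℝ) ^ δ ≤ l) ∧
        ArithmeticFunction.cardFactors (F n p) ≤ R ∧ ArithmeticFunction.cardFactors (G n p) ≤ R := by
  obtain ⟨δ, c, hδ, hc, n₀, hn₀, h⟩ := appn s hs hs1
  obtain ⟨R, hR⟩ := Omega_le δ hδ
  refine ⟨δ, c, R, hδ, hc, max n₀ 4, le_trans hn₀ (le_max_left _ _), fun n hn => ?_⟩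
  have hn4 : 4 ≤ n := le_trans (le_max_right _ _) hn
  have hn2 : 2 ≤ n := by omega
  refine ⟨_, h n (le_trans (le_max_left _ _) hn) (A n) (B n) (e n) (f n) (hef n) (h2 n) (h3 n), fun p hp => ?_⟩
  rw [mem_filter] at hp
  obtain ⟨_, hpp, hp1, hp2, hl⟩ := hp
  obtain ⟨f1, f2, f3⟩ := hF n p hn4 hp1 hp2
  obtain ⟨g1, g2, g3⟩ := hG n p hn4 hp1 hp2
  rw [← f1, ← g1] at hl
  have k1 : ∀ l : ℕ, l.Prime → l ∣ F n p → (n : ℝ) ^ δ ≤ l := fun l hlp hd => hl l hlp (by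
    have : (l : ℤ) ∣ (F n p : ℤ) := by exact_mod_cast hd
    exact this.mul_right _)
  have k2 : ∀ l : ℕ, l.Prime → l ∣ G n p → (n : ℝ) ^ δ ≤ l := fun l hlp hd => hl l hlp (by
    have : (l : ℤ) ∣ (G n p : ℤ) := by exact_mod_cast hd
    exact this.mul_left _)
  refine ⟨hpp, hp1, hp2, fun l hlp hd => ?_, hR n hn2 _ f2 f3 k1, hR n hn2 _ g2 g3 k2⟩
  rcases hd with h | h
  · exact k1 l hlp h
  · exact k2 l hlp h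

end Run7.h870.BS
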