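import Pool.Agent.Run7.h870.BS.Tw

/-!
# Two linear forms in a prime, the leading coefficients may have common factors
-/

set_option autoImplicit false
set_option linter.all false

namespace Run7.h870.BS2

open Finset Filter Topology
open Run7.h870.BS (PS primes small)
open scoped Classical

/-- the bad classes -/
noncomputable def bad (A B e f : ℤ) (l : ℕ) : Finset ℕ :=
  (range l).filter (fun a : ℕ => 0 < a ∧ ((l : ℤ) ∣ A + e * a ∨ (l : ℤ) ∣ B + f * a))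

theorem one_class (l : ℕ) (hl : l.Prime) (A e : ℤ) (he : ¬ (l : ℤ) ∣ e ∨ ¬ (l : ℤ) ∣ A) :
    ((range l).filter (fun a : ℕ => (l : ℤ) ∣ A + e * a)).card ≤ 1 := by
  rw [card_le_one]
  intro a ha b hb
  rw [mem_filter, mem_range] at ha hb
  have h1 := dvd_sub ha.2 hb.2
  have h2 : A + e * a - (A + e * b) = e * ((a : ℤ) - b) := by ring
  rw [h2] at h1
  rcases (Nat.prime_iff_prime_int.1 hl).dvd_or_dvd h1 with h3 | h3
  · rcases he with he | he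
    · exact absurd h3 he
    · exact absurd ((Int.dvd_add_left (h3.mul_right _)).1 ha.2) he
  · have h4 : (a : ℤ) ≡ b [ZMOD l] := (Int.modEq_iff_dvd.2 (by
      have := (dvd_neg (a := (l : ℤ))).2 h3
      rwa [neg_sub] at this))
    have h5 : a ≡ b [MOD l] := by exact_mod_cast h4
    exact Nat.ModEq.eq_of_lt_of_lt h5 ha.1 hb.1

theorem bad_card (l : ℕ) (hl : l.Prime) (A B e f : ℤ) (he : ¬ (l : ℤ) ∣ e ∨ ¬ (l : ℤ) ∣ A) (hf : ¬ (l : ℤ) ∣ f ∨ ¬ (l : ℤ) ∣ B) :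
    (bad A B e f l).card ≤ 2 := by
  have h1 : bad A B e f l ⊆ (range l).filter (fun a : ℕ => (l : ℤ) ∣ A + e * a) ∪ (range l).filter (fun a : ℕ => (l : ℤ) ∣ B + f * a) := by
    intro a ha
    unfold bad at ha
    rw [mem_filter] at ha
    rw [mem_union, mem_filter, mem_filter]
    rcases ha.2.2 with h | h
    · exact Or.inl ⟨ha.1, h⟩
    · exact Or.inr ⟨ha.1, h⟩
  have h2 := one_class l hl A e he
  have h3 := one_class l hl B f hf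
  have h4 := card_le_card h1
  have h5 := card_union_le ((range l).filter (fun a : ℕ => (l : ℤ) ∣ A + e * a)) ((range l).filter (fun a : ℕ => (l : ℤ) ∣ B + f * a))
  omega

/-- a good class for every prime at least `5` -/
theorem good5 (l : ℕ) (hl : l.Prime) (h5 : 5 ≤ l) (A B e f : ℤ) (he : ¬ (l : ℤ) ∣ e ∨ ¬ (l : ℤ) ∣ A) (hf : ¬ (l : ℤ) ∣ f ∨ ¬ (l : ℤ) ∣ B) :
    ∃ a : ℕ, ¬ l ∣ a ∧ ¬ (l : ℤ) ∣ A + e * a ∧ ¬ (l : ℤ) ∣ B + f * a := by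
  have h1 := bad_card l hl A B e f he hf
  obtain ⟨a, ha, hab⟩ : ∃ a ∈ Icc 1 (l - 1), a ∉ bad A B e f l := by
    by_contra hc
    push Not at hc
    have h2 : Icc 1 (l - 1) ⊆ bad A B e f l := fun a ha => hc a ha
    have h3 := card_le_card h2
    rw [Nat.card_Icc] at h3
    omega
  rw [mem_Icc] at ha
  unfold bad at hab
  rw [mem_filter, mem_range] at hab
  push Not at hab
  have h3 := hab (by omega) (by omega)
  refine ⟨a, fun hd => ?_, h3.1, h3.2⟩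
  have := Nat.le_of_dvd (by omega) hd
  omega

/-- **two linear forms in a prime**, uniformly in the constants -/
theorem app : ∃ δ c : ℝ, 0 < δ ∧ δ < 1 ∧ 0 < c ∧ ∀ᶠ X : ℝ in atTop, ∀ A B e f : ℤ,
    (∀ l : ℕ, l.Prime → 3 ≤ l → (¬ (l : ℤ) ∣ e ∨ ¬ (l : ℤ) ∣ A) ∧ (¬ (l : ℤ) ∣ f ∨ ¬ (l : ℤ) ∣ B)) →
    (∃ a : ℕ, ¬ 2 ∣ a ∧ ¬ (2 : ℤ) ∣ A + e * a ∧ ¬ (2 : ℤ) ∣ B + f * a) →
    (∃ a : ℕ, ¬ 3 ∣ a ∧ ¬ (3 : ℤ) ∣ A + e * a ∧ ¬ (3 : ℤ) ∣ B + f * a) →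
    c * (X / Real.log X ^ 3) ≤ (((Icc 1 ⌊3 * X⌋₊).filter (fun m : ℕ => m.Prime ∧ X < m ∧ (m : ℝ) < 2 * X ∧
      ∀ l : ℕ, l.Prime → (l : ℤ) ∣ (A + e * m) * (B + f * m) → X ^ δ ≤ l)).card : ℝ) := by
  obtain ⟨K, hK, hs⟩ := primes
  obtain ⟨δ, c, hδ, hδ1, hc, hX⟩ := hs K.factorial (Nat.factorial_pos K) (by
    intro p hp h h2
    have := (Nat.Prime.dvd_factorial hp).1 h2
    omega)
  refine ⟨δ, c, hδ, hδ1, hc, ?_⟩
  filter_upwards [hX, eventually_ge_atTop 1] with X hX hX1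
  intro A B e f hef h2 h3
  have H : ∀ l : ℕ, l.Prime → ∃ a : ℕ, ¬ l ∣ a ∧ ¬ (l : ℤ) ∣ A + e * a ∧ ¬ (l : ℤ) ∣ B + f * a := by
    intro l hl
    rcases Nat.lt_or_ge l 5 with h | h
    · interval_cases l
      · exact absurd hl (by norm_num)
      · exact absurd hl (by norm_num)
      · exact_mod_cast h2
      · exact_mod_cast h3
      · exact absurd hl (by norm_num)
    · exact good5 l hl h A B e f (hef l hl (by omega)).1 (hef l hl (by omega)).2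
  obtain ⟨r, hr, hrW, hrl⟩ := small K A B e f H
  obtain ⟨Cl, hCl⟩ : ∃ Cl : ℕ → Finset ℕ, Cl = fun l => if l.Prime ∧ K < l then bad A B e f l else ∅ := ⟨_, rfl⟩
  have h1 := hX r hr hrW Cl (by
    intro l
    rw [hCl]
    by_cases hl : l.Prime ∧ K < l
    · simp only [if_pos hl]
      refine ⟨bad_card l hl.1 A B e f (hef l hl.1 (by omega)).1 (hef l hl.1 (by omega)).2, fun a ha => ?_⟩
      unfold bad at ha
      rw [mem_filter, mem_range] at ha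
      exact ⟨ha.2.1, ha.1⟩
    · simp only [if_neg hl]
      exact ⟨by simp, fun a ha => absurd ha (notMem_empty a)⟩)
  refine h1.trans ?_
  rw [Nat.cast_le]
  apply card_le_card
  intro m hm
  unfold PS at hm
  rw [mem_filter] at hm ⊢
  obtain ⟨hm0, hmp, hmX, hm2, hmr, hml⟩ := hm
  refine ⟨hm0, hmp, hmX, hm2, fun l hl hd => ?_⟩
  by_contra hlt
  rw [not_le] at hlt
  have hd2 := (Nat.prime_iff_prime_int.1 hl).dvd_or_dvd hd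
  rcases Nat.lt_or_ge K l with hKl | hKl
  · have h4 := hml l hl hKl hlt
    apply h4
    rw [hCl]
    simp only [if_pos (⟨hl, hKl⟩ : l.Prime ∧ K < l)]
    unfold bad
    rw [mem_filter, mem_range]
    refine ⟨Nat.mod_lt _ hl.pos, ?_, ?_⟩
    · rw [Nat.pos_iff_ne_zero]
      intro h0
      have h5 : l ∣ m := Nat.dvd_of_mod_eq_zero h0
      have h6 : l = m := (Nat.prime_dvd_prime_iff_eq hl hmp).1 h5
      have h7 : X ^ δ ≤ X := by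
        calc X ^ δ ≤ X ^ (1 : ℝ) := Real.rpow_le_rpow_of_exponent_le hX1 hδ1.le
          _ = X := Real.rpow_one X
      rw [h6] at hlt
      linarith
    · have h8 : ∀ C g : ℤ, (l : ℤ) ∣ C + g * m → (l : ℤ) ∣ C + g * ((m % l : ℕ) : ℤ) := by
        intro C g h
        have h9 : ((m % l : ℕ) : ℤ) ≡ (m : ℤ) [ZMOD (l : ℤ)] := by exact_mod_cast Nat.mod_modEq m l
        have h6 : C + g * ((m % l : ℕ) : ℤ) ≡ C + g * m [ZMOD (l : ℤ)] := (h9.mul_left g).add_left C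
        exact (Int.ModEq.dvd_iff h6).2 h
      rcases hd2 with h | h
      · exact Or.inl (h8 _ _ h)
      · exact Or.inr (h8 _ _ h)
  · have h4 := hrl m hmr l hl hKl
    rcases hd2 with h | h
    · exact h4.1 h
    · exact h4.2 h

/-- two linear forms in a prime of `(s n, 2 s n)` -/
theorem appn (s : ℝ) (hs : 0 < s) (hs1 : s ≤ 1) : ∃ δ c : ℝ, 0 < δ ∧ 0 < c ∧ ∃ n₀ : ℕ, 2 ≤ n₀ ∧ ∀ n : ℕ, n₀ ≤ n → ∀ A B e f : ℤ,
    (∀ l : ℕ, l.Prime → 3 ≤ l → (¬ (l : ℤ) ∣ e ∨ ¬ (l : ℤ) ∣ A) ∧ (¬ (l : ℤ) ∣ f ∨ ¬ (l : ℤ) ∣ B)) →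
    (∃ a : ℕ, ¬ 2 ∣ a ∧ ¬ (2 : ℤ) ∣ A + e * a ∧ ¬ (2 : ℤ) ∣ B + f * a) →
    (∃ a : ℕ, ¬ 3 ∣ a ∧ ¬ (3 : ℤ) ∣ A + e * a ∧ ¬ (3 : ℤ) ∣ B + f * a) →
    c * (n / Real.log n ^ 3) ≤ (((Icc 1 ⌊3 * (s * n)⌋₊).filter (fun m : ℕ => m.Prime ∧ s * n < m ∧ (m : ℝ) < 2 * (s * n) ∧
      ∀ l : ℕ, l.Prime → (l : ℤ) ∣ (A + e * m) * (B + f * m) → (n : ℝ) ^ δ ≤ l)).card : ℝ) := by
  obtain ⟨δ, c, hδ, hδ1, hc, hX⟩ := app
  have ht : Tendsto (fun n : ℕ => s * (n : ℝ)) atTop atTop := tendsto_natCast_atTop_atTop.const_mul_atTop hs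
  have e1 : ∀ᶠ n : ℕ in atTop, 1 / s ^ 2 ≤ (n : ℝ) := tendsto_natCast_atTop_atTop.eventually_ge_atTop _
  have e2 : ∀ᶠ n : ℕ in atTop, 3 ≤ s * (n : ℝ) := ht.eventually_ge_atTop _
  obtain ⟨n1, hn1⟩ := eventually_atTop.1 ((ht.eventually hX).and (e1.and e2))
  refine ⟨δ / 2, c * s, by positivity, by positivity, max n1 2, le_max_right _ _, fun n hn A B e f hef h2 h3 => ?_⟩
  obtain ⟨h4, h5, h6⟩ := hn1 n (le_trans (le_max_left _ _) hn)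
  have hn2 : 2 ≤ n := le_trans (le_max_right _ _) hn
  have hn0 : (0 : ℝ) < n := by exact_mod_cast (by omega : 0 < n)
  have h7 := h4 A B e f hef h2 h3
  have hsn : s * n ≤ n := by nlinarith
  have hl1 : 0 < Real.log (s * n) := Real.log_pos (by linarith)
  have hl2 : Real.log (s * n) ≤ Real.log n := Real.log_le_log (by linarith) hsn
  have h8 : c * s * (n / Real.log n ^ 3) ≤ c * (s * n / Real.log (s * n) ^ 3) := by
    calc c * s * (n / Real.log n ^ 3) = c * (s * n / Real.log n ^ 3) := by ring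
      _ ≤ _ := by
        apply mul_le_mul_of_nonneg_left _ hc.le
        apply div_le_div_of_nonneg_left (by positivity) (by positivity)
        exact pow_le_pow_left₀ hl1.le hl2 3
  refine h8.trans (h7.trans ?_)
  rw [Nat.cast_le]
  apply card_le_card
  intro m hm
  rw [mem_filter] at hm ⊢
  refine ⟨hm.1, hm.2.1, hm.2.2.1, hm.2.2.2.1, fun l hl hd => ?_⟩
  refine le_trans ?_ (hm.2.2.2.2 l hl hd)
  -- `n ^ (δ/2) ≤ (s n) ^ δ`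
  have h9 : (n : ℝ) ^ (1 / 2 : ℝ) ≤ s * n := by
    rw [← Real.sqrt_eq_rpow, Real.sqrt_le_left (by positivity)]
    rw [div_le_iff₀ (by positivity)] at h5
    calc (n : ℝ) = n * 1 := (mul_one _).symm
      _ ≤ n * (n * s ^ 2) := mul_le_mul_of_nonneg_left h5 hn0.le
      _ = (s * n) ^ 2 := by ring
  calc (n : ℝ) ^ (δ / 2) = ((n : ℝ) ^ (1 / 2 : ℝ)) ^ δ := by
        rw [← Real.rpow_mul hn0.le]
        congr 1
        ring
    _ ≤ (s * n) ^ δ := Real.rpow_le_rpow (by positivity) h9 hδ.le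

theorem wrap (s : ℝ) (hs : 0 < s) (hs1 : s ≤ 1) (A B e f : ℕ → ℤ) (F G : ℕ → ℕ → ℕ)
    (hF : ∀ n p : ℕ, 4 ≤ n → s * n < p → (p : ℝ) < 2 * (s * n) → (F n p : ℤ) = A n + e n * p ∧ 0 < F n p ∧ F n p ≤ n ^ 4)
    (hG : ∀ n p : ℕ, 4 ≤ n → s * n < p → (p : ℝ) < 2 * (s * n) → (G n p : ℤ) = B n + f n * p ∧ 0 < G n p ∧ G n p ≤ n ^ 4)
    (hef : ∀ n l : ℕ, l.Prime → 3 ≤ l → (¬ (l : ℤ) ∣ e n ∨ ¬ (l : ℤ) ∣ A n) ∧ (¬ (l : ℤ) ∣ f n ∨ ¬ (l : ℤ) ∣ B n))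
    (h2 : ∀ n : ℕ, ∃ a : ℕ, ¬ 2 ∣ a ∧ ¬ (2 : ℤ) ∣ A n + e n * a ∧ ¬ (2 : ℤ) ∣ B n + f n * a)
    (h3 : ∀ n : ℕ, ∃ a : ℕ, ¬ 3 ∣ a ∧ ¬ (3 : ℤ) ∣ A n + e n * a ∧ ¬ (3 : ℤ) ∣ B n + f n * a) :
    ∃ (δ c : ℝ) (R : ℕ), 0 < δ ∧ 0 < c ∧ ∃ n₀ : ℕ, 2 ≤ n₀ ∧ ∀ n : ℕ, n₀ ≤ n → ∃ T : Finset ℕ,
      c * (n / Real.log n ^ 3) ≤ (T.card : ℝ) ∧ ∀ p ∈ T, p.Prime ∧ s * n < p ∧ (p : ℝ) < 2 * (s * n) ∧
        (∀ l : ℕ, l.Prime → l ∣ F n p ∨ l ∣ G n p → (n : ℝ) ^ δ ≤ l) ∧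
        ArithmeticFunction.cardFactors (F n p) ≤ R ∧ ArithmeticFunction.cardFactors (G n p) ≤ R := by
  obtain ⟨δ, c, hδ, hc, n₀, hn₀, h⟩ := appn s hs hs1
  obtain ⟨R, hR⟩ := Run7.h870.BS.Omega_le δ hδ
  refine ⟨δ, c, R, hδ, hc, max n₀ 4, le_trans hn₀ (le_max_left _ _), fun n hn => ?_⟩
  have hn4 : 4 ≤ n := le_trans (le_max_right _ _) hn
  have hn2 : 2 ≤ n := by omega
  refine ⟨_, h n (le_trans (le_max_left _ _) hn) (A n) (B n) (e n) (f n) (hef n) (h2 n) (h3 n), fun p hp => ?_⟩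
  rw [mem_filter] at hp
  obtain ⟨_, hpp, hp1, hp2, hl⟩ := hp
  obtain ⟨f1, f2, f3⟩ := hF n p hn4 hp1 hp2
  obtain ⟨g1, g2, g3⟩ := hG n p hn4 hp1 hp2
  rw [← f1, ← g1] at hl
  have k1 : ∀ l : ℕ, l.Prime → l ∣ F n p → (n : ℝ) ^ δ ≤ l := fun l hlp hd => hl l hlp (by
    have : (l : ℤ) ∣ (F n p : ℤ) := by exact_mod_cast hd
    exact this.mul_right _)
  have k2 : ∀ l : ℕ, l.Prime → l ∣ G n p → (n : ℝ) ^ δ ≤ l := fun l hlp hd => hl l hlp (by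
    have : (l : ℤ) ∣ (G n p : ℤ) := by exact_mod_cast hd
    exact this.mul_left _)
  refine ⟨hpp, hp1, hp2, fun l hlp hd => ?_, hR n hn2 _ f2 f3 k1, hR n hn2 _ g2 g3 k2⟩
  rcases hd with h | h
  · exact k1 l hlp h
  · exact k2 l hlp h

end Run7.h870.BS2
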